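import Mathlib
import Pool.Agent.Y263.GF.Alg

/-!
The Banach algebra of bounded families of bounded holomorphic functions on balls (of varying
dimension), and the locality of the Bezout equation with respect to the closed algebra generated by
the functions `h ∘ ψ`, `ψ` with affine fibres.
-/

set_option autoImplicit false

open Metric Set Filter Topology WeakDual
open scoped ENNReal

namespace Pool.Agent.Helper47.Cor

open Pool.Agent.Y263.LF (Hb mkH mkH_apply evH evH_apply evH_le Hb_ext Bez Bez.mono basic_fin)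
open Pool.Agent.Y263.GF (AF AD loc_aff)

/-- `ℂ^n` with the Euclidean norm -/
abbrev V (n : ℕ) := EuclideanSpace ℂ (Fin n)

noncomputable instance instNOC (n : ℕ) : NormOneClass (Hb (V n)) := by
  have : Nonempty (ball (0 : V n) 1) := ⟨⟨0, mem_ball_self one_pos⟩⟩
  exact ⟨(norm_one : ‖(1 : BoundedContinuousFunction (ball (0 : V n) 1) ℂ)‖ = 1)⟩

variable {I : Type} {n : I → ℕ}

/-- the algebra of bounded families -/
def Fm (n : I → ℕ) : Type := lp (fun i => Hb (V (n i))) ∞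

noncomputable instance instNCR : NormedCommRing (Fm n) :=
  inferInstanceAs (NormedCommRing (lp (fun i => Hb (V (n i))) ∞))

noncomputable instance instNAl : NormedAlgebra ℂ (Fm n) :=
  inferInstanceAs (NormedAlgebra ℂ (lp (fun i => Hb (V (n i))) ∞))

instance instCpl : CompleteSpace (Fm n) :=
  inferInstanceAs (CompleteSpace (lp (fun i => Hb (V (n i))) ∞))

/-- the members of a family -/
def Fm.at (F : Fm n) (i : I) : Hb (V (n i)) := F.1 i

/-- evaluation -/
noncomputable def ev (s : Σ i, ball (0 : V (n i)) 1) : Fm n →ₐ[ℂ] ℂ where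
  toFun F := evH s.2 (F.at s.1)
  map_one' := map_one (evH s.2)
  map_mul' F G := map_mul (evH s.2) (F.at s.1) (G.at s.1)
  map_zero' := map_zero (evH s.2)
  map_add' F G := map_add (evH s.2) (F.at s.1) (G.at s.1)
  commutes' c := AlgHomClass.commutes (evH s.2) c

theorem ev_apply (s : Σ i, ball (0 : V (n i)) 1) (F : Fm n) : ev s F = evH s.2 (F.at s.1) := rfl

theorem ev_le (s : Σ i, ball (0 : V (n i)) 1) (F : Fm n) : ‖ev s F‖ ≤ ‖F‖ :=
  (evH_le s.2 (F.at s.1)).trans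
    (lp.norm_apply_le_norm (E := fun i => Hb (V (n i))) ENNReal.top_ne_zero F s.1)

theorem Fm_ext {F G : Fm n} (h : ∀ s, ev s F = ev s G) : F = G := by
  refine lp.ext (E := fun i => Hb (V (n i))) ?_
  funext i
  exact Hb_ext fun z => h ⟨i, z⟩

/-- the element of a family of functions -/
noncomputable def mkF {f : (i : I) → V (n i) → ℂ} (hf : ∀ i, DifferentiableOn ℂ (f i) (ball 0 1))
    {C : ℝ} (hC : ∀ i, ∀ z ∈ ball (0 : V (n i)) 1, ‖f i z‖ ≤ C) : Fm n :=
  ⟨fun i => mkH (f i) (hf i) C (hC i), by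
    refine memℓp_infty ⟨max C 0, ?_⟩
    rintro _ ⟨i, rfl⟩
    refine (BoundedContinuousFunction.norm_le (le_max_right C 0)).2 fun z => ?_
    exact (hC i z z.2).trans (le_max_left _ _)⟩

theorem ev_mkF {f : (i : I) → V (n i) → ℂ} (hf : ∀ i, DifferentiableOn ℂ (f i) (ball 0 1))
    {C : ℝ} (hC : ∀ i, ∀ z ∈ ball (0 : V (n i)) 1, ‖f i z‖ ≤ C) (s : Σ i, ball (0 : V (n i)) 1) :
    ev s (mkF hf hC) = f s.1 s.2 := rfl

/-- representation of an element by functions -/
theorem exists_rep (F : Fm n) : ∃ f : (i : I) → V (n i) → ℂ,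
    (∀ i, DifferentiableOn ℂ (f i) (ball 0 1)) ∧
    (∀ i, ∀ z ∈ ball (0 : V (n i)) 1, ‖f i z‖ ≤ ‖F‖) ∧
    ∀ s : Σ i, ball (0 : V (n i)) 1, ev s F = f s.1 s.2 := by
  have h1 : ∀ i, ∃ f : V (n i) → ℂ, DifferentiableOn ℂ f (ball 0 1) ∧
      ∀ z : ball (0 : V (n i)) 1, evH z (F.at i) = f z := fun i => (F.at i).2
  choose f hf hf2 using h1
  refine ⟨f, hf, fun i z hz => ?_, fun s => hf2 s.1 s.2⟩
  rw [← hf2 i ⟨z, hz⟩]
  exact ev_le ⟨i, z, hz⟩ F

theorem char_alg (χ : characterSpace ℂ (Fm n)) (c : ℂ) : χ (algebraMap ℂ (Fm n) c) = c := by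
  have := AlgHomClass.commutes χ c
  simpa using this

theorem char_le (χ : characterSpace ℂ (Fm n)) (F : Fm n) : ‖χ F‖ ≤ ‖F‖ * ‖(1 : Fm n)‖ := by
  have h := AlgHom.apply_mem_spectrum χ F
  exact spectrum.norm_le_norm_mul_of_mem h

/-- families of functions `h ∘ ψ` -/
def RF (n : I → ℕ) : Set (Fm n) := {F | ∃ (h : I → ℂ → ℂ) (ψ : (i : I) → V (n i) → ℂ) (C : ℝ),
  (∀ i, DifferentiableOn ℂ (h i) (ball 0 1)) ∧ (∀ i, ∀ w ∈ ball (0 : ℂ) 1, ‖h i w‖ ≤ C) ∧
  (∀ i, AD (ψ i)) ∧ ∀ s : Σ i, ball (0 : V (n i)) 1, ev s F = h s.1 (ψ s.1 s.2)}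

/-- the closed algebra generated by these families -/
noncomputable def RA (n : I → ℕ) : Subalgebra ℂ (Fm n) :=
  (Algebra.adjoin ℂ (RF n)).topologicalClosure

/-- the filter of a character -/
noncomputable def Fl (χ : characterSpace ℂ (Fm n)) : Filter (Σ i, ball (0 : V (n i)) 1) :=
  ⨅ h : RF n, comap (fun s => ev s (h : Fm n)) (𝓝 (χ (h : Fm n)))

theorem Fl_tendsto (χ : characterSpace ℂ (Fm n)) {a : Fm n} (ha : a ∈ RA n) :
    Tendsto (fun s => ev s a) (Fl χ) (𝓝 (χ a)) := by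
  set Cv : Subalgebra ℂ (Fm n) :=
    { carrier := {a | Tendsto (fun s => ev s a) (Fl χ) (𝓝 (χ a))}
      mul_mem' := by
        intro a b ha hb
        have := Tendsto.mul ha hb
        simpa [map_mul] using this
      add_mem' := by
        intro a b ha hb
        have := Tendsto.add ha hb
        simpa [map_add] using this
      algebraMap_mem' := by
        intro c
        simp only [Set.mem_ofPred_eq, AlgHom.commutes, char_alg χ c]
        exact tendsto_const_nhds } with hCv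
  have hsub : Algebra.adjoin ℂ (RF n) ≤ Cv := by
    refine Algebra.adjoin_le ?_
    intro h hh
    change Tendsto (fun s => ev s h) (Fl χ) (𝓝 (χ h))
    have h1 : Fl χ ≤ comap (fun s => ev s h) (𝓝 (χ h)) :=
      iInf_le (fun h : RF n => comap (fun s => ev s (h : Fm n)) (𝓝 (χ (h : Fm n)))) ⟨h, hh⟩
    exact tendsto_comap.mono_left h1
  rw [Metric.tendsto_nhds]
  intro η hη
  have h0 : (0 : ℝ) < η / (2 * (1 + ‖(1 : Fm n)‖)) := by positivity
  have ha' : a ∈ closure ((Algebra.adjoin ℂ (RF n) : Subalgebra ℂ (Fm n)) : Set (Fm n)) := ha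
  obtain ⟨b, hb, hab⟩ := Metric.mem_closure_iff.1 ha' _ h0
  have h1 : Tendsto (fun s => ev s b) (Fl χ) (𝓝 (χ b)) := hsub hb
  rw [Metric.tendsto_nhds] at h1
  filter_upwards [h1 (η / 2) (by positivity)] with s hs
  rw [dist_eq_norm] at hab hs ⊢
  have e1 : ev s a - χ a = ev s (a - b) + (ev s b - χ b) - χ (a - b) := by
    rw [map_sub, map_sub]
    ring
  rw [e1]
  have h2 := ev_le s (a - b)
  have h3 := char_le χ (a - b)
  have h4 : ‖a - b‖ * (1 + ‖(1 : Fm n)‖) < η / 2 := by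
    have h5 : (0 : ℝ) < 1 + ‖(1 : Fm n)‖ := by positivity
    calc ‖a - b‖ * (1 + ‖(1 : Fm n)‖)
        < η / (2 * (1 + ‖(1 : Fm n)‖)) * (1 + ‖(1 : Fm n)‖) := by gcongr
      _ = η / 2 := by field_simp
  calc ‖ev s (a - b) + (ev s b - χ b) - χ (a - b)‖
      ≤ ‖ev s (a - b) + (ev s b - χ b)‖ + ‖χ (a - b)‖ := norm_sub_le _ _
    _ ≤ ‖ev s (a - b)‖ + ‖ev s b - χ b‖ + ‖χ (a - b)‖ := by gcongr; exact norm_add_le _ _
    _ < η := by nlinarith

end Pool.Agent.Helper47.Cor
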