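import Mathlib
import Pool.Agent.Helper47.Cor.Loc

/-!
The locality theorem.
-/

set_option autoImplicit false

open Metric Set Filter Topology WeakDual
open scoped ENNReal

namespace Pool.Agent.Helper47.Cor

open Pool.Agent.Y263.LF (Hb mkH mkH_apply evH evH_apply evH_le Hb_ext Bez Bez.mono basic_fin)
open Pool.Agent.Y263.GF (AF AD loc_aff ddiv)

variable {I : Type} {n : I → ℕ}

/-- **Locality for the generators.** -/
theorem loc_gen (χ : characterSpace ℂ (Fm n)) (K M : ℕ) (x : Fin K → Fm n) (hx : ∀ k, x k ∈ RF n)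
    (g : Fin M → (i : I) → V (n i) → ℂ) (hg : ∀ m i, DifferentiableOn ℂ (g m i) (ball 0 1))
    {R : ℝ} (hR : ∀ m i, ∀ z ∈ ball (0 : V (n i)) 1, ‖g m i z‖ ≤ R)
    (hχ : ∀ m, χ (mkF (hg m) (hR m)) = 0) {η Q : ℝ} (hη : 0 < η) (hQ : 0 ≤ Q) :
    ¬ ∀ i, Bez {z : V (n i) | ‖z‖ < 1 ∧ ∀ (hz : z ∈ ball (0 : V (n i)) 1) (k : Fin K),
      ‖ev ⟨i, z, hz⟩ (x k) - χ (x k)‖ < η} (fun m => g m i) Q := by
  intro hsol
  choose h ψ Ch h1 h2 h3 h4 using hx
  -- the common bound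
  obtain ⟨R0, hR0⟩ : ∃ R0 : ℝ, R0 = 1 + |R| + ∑ k, (|Ch k| + ‖χ (x k)‖) := ⟨_, rfl⟩
  have hsn : 0 ≤ ∑ k, (|Ch k| + ‖χ (x k)‖) := Finset.sum_nonneg (fun _ _ => by positivity)
  have hR00 : 0 < R0 := by
    have := abs_nonneg R
    linarith
  have hRle : R ≤ R0 := by
    have := le_abs_self R
    linarith
  have hRc : (R0 : ℂ) ≠ 0 := by exact_mod_cast hR00.ne'
  have hRn : ‖(R0 : ℂ)‖ = R0 := by rw [Complex.norm_real, Real.norm_of_nonneg hR00.le]
  have hck : ∀ k i, ∀ w ∈ ball (0 : ℂ) 1, ‖(h k i w - χ (x k)) / R0‖ ≤ 1 := by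
    intro k i w hw
    rw [norm_div, hRn, div_le_one hR00]
    refine (norm_sub_le _ _).trans ?_
    have e1 := h2 k i w hw
    have e2 := Finset.single_le_sum (f := fun k => |Ch k| + ‖χ (x k)‖)
      (fun _ _ => by positivity) (Finset.mem_univ k)
    have e3 := le_abs_self (Ch k)
    have e4 := abs_nonneg R
    linarith
  obtain ⟨C, hC, H⟩ := loc_aff 1 K M (ε := η / R0) (Q := R0 * Q) (by positivity) (by positivity)
  have hbez : ∀ i, Bez (ball (0 : V (n i)) 1)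
      (Sum.elim (fun (q : Fin K × Fin 1) z => (h q.1 i (ψ q.1 i z) - χ (x q.1)) / R0)
        (fun m z => g m i z / R0)) C := by
    intro i
    refine H (V (n i)) (fun k => ψ k i) (fun k _ w => (h k i w - χ (x k)) / R0)
      (fun k => (h3 k i).1) (fun k => (h3 k i).2)
      (fun k _ => ((h1 k i).sub_const _).div_const _) (fun k _ => hck k i)
      (fun m z => g m i z / R0) (fun m => ddiv (hg m i) _)
      (fun m z hz => by
        rw [norm_div, hRn, div_le_one hR00]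
        exact (hR m i z hz).trans hRle) ?_
    obtain ⟨a, a1, a2, a3⟩ := hsol i
    have hsub : {z : V (n i) | ‖z‖ < 1 ∧ ∀ (k : Fin K) (_ : Fin 1),
        ‖(h k i (ψ k i z) - χ (x k)) / R0‖ < η / R0} ⊆
        {z : V (n i) | ‖z‖ < 1 ∧ ∀ (hz : z ∈ ball (0 : V (n i)) 1) (k : Fin K),
          ‖ev ⟨i, z, hz⟩ (x k) - χ (x k)‖ < η} := by
      rintro z ⟨hz, hk⟩
      refine ⟨hz, fun hz' k => ?_⟩
      have e1 := hk k 0
      rw [norm_div, hRn] at e1
      rw [h4 k ⟨i, z, hz'⟩]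
      exact (div_lt_div_iff_of_pos_right hR00).1 e1
    refine ⟨fun m z => R0 * a m z, fun m => ((a1 m).mono hsub).const_mul _, fun m z hz => ?_,
      fun z hz => ?_⟩
    · rw [norm_mul, hRn]
      have := a2 m z (hsub hz)
      gcongr
    · rw [← a3 z (hsub hz)]
      refine Finset.sum_congr rfl fun m _ => ?_
      field_simp
  choose b b1 b2 b3 using hbez
  -- the identity in the algebra
  have hid : ∑ k, (x k - algebraMap ℂ (Fm n) (χ (x k))) *
        (algebraMap ℂ (Fm n) ((R0 : ℂ)⁻¹) *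
          mkF (f := fun i => b i (Sum.inl (k, 0))) (fun i => b1 i _) (fun i => b2 i _)) +
      ∑ m, mkF (hg m) (hR m) * (algebraMap ℂ (Fm n) ((R0 : ℂ)⁻¹) *
          mkF (f := fun i => b i (Sum.inr m)) (fun i => b1 i _) (fun i => b2 i _)) = 1 := by
    refine Fm_ext fun s => ?_
    have e1 := b3 s.1 s.2 s.2.2
    rw [Fintype.sum_sum_type, Fintype.sum_prod_type] at e1
    simp only [Sum.elim_inl, Sum.elim_inr, Finset.univ_unique, Finset.sum_singleton,
      Fin.default_eq_zero] at e1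
    rw [map_add, map_sum, map_sum, map_one, ← e1]
    congr 1
    · refine Finset.sum_congr rfl fun k _ => ?_
      rw [map_mul, map_mul, map_sub, AlgHom.commutes, AlgHom.commutes, ev_mkF, h4 k s]
      simp only [Algebra.algebraMap_self, RingHom.id_apply]
      field_simp
    · refine Finset.sum_congr rfl fun m _ => ?_
      rw [map_mul, map_mul, AlgHom.commutes, ev_mkF, ev_mkF]
      simp only [Algebra.algebraMap_self, RingHom.id_apply]
      field_simp
  have e2 := congrArg χ hid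
  rw [map_add, map_sum, map_sum, map_one] at e2
  have e3 : ∀ k, χ ((x k - algebraMap ℂ (Fm n) (χ (x k))) *
        (algebraMap ℂ (Fm n) ((R0 : ℂ)⁻¹) *
          mkF (f := fun i => b i (Sum.inl (k, 0))) (fun i => b1 i _) (fun i => b2 i _))) = 0 := by
    intro k
    rw [map_mul, map_sub, char_alg, sub_self, zero_mul]
  have e4 : ∀ m, χ (mkF (hg m) (hR m) * (algebraMap ℂ (Fm n) ((R0 : ℂ)⁻¹) *
          mkF (f := fun i => b i (Sum.inr m)) (fun i => b1 i _) (fun i => b2 i _))) = 0 := by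
    intro m
    rw [map_mul, hχ m, zero_mul]
  rw [Finset.sum_congr rfl (fun k _ => e3 k), Finset.sum_congr rfl (fun m _ => e4 m)] at e2
  simp at e2

/-- the filter of a character is generated by polyhedra -/
theorem Fl_basic (χ : characterSpace ℂ (Fm n)) {s : Set (Σ i, ball (0 : V (n i)) 1)}
    (hs : s ∈ Fl χ) : ∃ (K : ℕ) (x : Fin K → Fm n) (η : ℝ), (∀ k, x k ∈ RF n) ∧ 0 < η ∧
      ∀ y, (∀ k, ‖ev y (x k) - χ (x k)‖ < η) → y ∈ s := by
  classical
  rw [Fl, mem_iInf_finite] at hs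
  obtain ⟨t, ht⟩ := hs
  obtain ⟨η, hη, hη2⟩ := basic_fin ev (fun h : RF n => (h : Fm n)) (fun h => χ (h : Fm n)) t s ht
  let e := t.equivFin.symm
  refine ⟨t.card, fun k => ((e k : RF n) : Fm n), η, fun k => (e k : RF n).2, hη, fun y hy => ?_⟩
  refine hη2 y fun i hi => ?_
  have h1 := hy (e.symm ⟨i, hi⟩)
  simpa using h1

theorem Bez.reindex {X : Type} [NormedAddCommGroup X] [NormedSpace ℂ X] {Ω : Set X} {J J' : Type}
    [Fintype J] [Fintype J'] {F : J → X → ℂ} {C : ℝ} (e : J' ≃ J) (h : Bez Ω F C) :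
    Bez Ω (fun j => F (e j)) C := by
  obtain ⟨g, h1, h2, h3⟩ := h
  refine ⟨fun j => g (e j), fun j => h1 _, fun j => h2 _, fun z hz => ?_⟩
  rw [← h3 z hz]
  exact Equiv.sum_comp e (fun j => F j z * g j z)

theorem Bez.comp {X : Type} [NormedAddCommGroup X] [NormedSpace ℂ X] {Ω Ω' : Set X} {J : Type}
    [Fintype J] {F : J → X → ℂ} {C : ℝ} {φ : X → X} (hφ : DifferentiableOn ℂ φ Ω')
    (hm : MapsTo φ Ω' Ω) (h : Bez Ω F C) : Bez Ω' (fun j z => F j (φ z)) C := by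
  obtain ⟨g, h1, h2, h3⟩ := h
  exact ⟨fun j z => g j (φ z), fun j => (h1 j).comp hφ hm, fun j z hz => h2 j _ (hm hz),
    fun z hz => h3 _ (hm hz)⟩

/-- **Locality.** -/
theorem locality (χ : characterSpace ℂ (Fm n)) {ι : Type} [Fintype ι]
    (g : ι → (i : I) → V (n i) → ℂ) (hg : ∀ m i, DifferentiableOn ℂ (g m i) (ball 0 1))
    {R : ℝ} (hR : ∀ m i, ∀ z ∈ ball (0 : V (n i)) 1, ‖g m i z‖ ≤ R)
    (hχ : ∀ m, χ (mkF (hg m) (hR m)) = 0) {s : Set (Σ i, ball (0 : V (n i)) 1)} (hs : s ∈ Fl χ)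
    {Q : ℝ} :
    ¬ ∀ i, Bez {z : V (n i) | ∃ hz : z ∈ ball (0 : V (n i)) 1, (⟨i, z, hz⟩ : Σ i, ball (0 : V (n i)) 1) ∈ s}
      (fun m => g m i) Q := by
  intro hsol
  obtain ⟨K, x, η, hx, hη, hxs⟩ := Fl_basic χ hs
  let e := (Fintype.equivFin ι).symm
  refine loc_gen χ K (Fintype.card ι) x hx (fun m => g (e m)) (fun m => hg (e m)) (R := R)
    (fun m => hR (e m)) (fun m => hχ (e m)) hη (le_max_right Q 0) fun i => ?_
  refine Bez.reindex e ((hsol i).mono ?_ (le_max_left Q 0))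
  rintro z ⟨hz, hk⟩
  have hz' : z ∈ ball (0 : V (n i)) 1 := mem_ball_zero_iff.2 hz
  exact ⟨hz', hxs _ (hk hz')⟩

/-- from characters to uniform solutions -/
theorem exists_chi {ι : Type} [Fintype ι] (f : ι → (i : I) → V (n i) → ℂ)
    (hf : ∀ j i, DifferentiableOn ℂ (f j i) (ball 0 1)) {R : ℝ}
    (hR : ∀ j i, ∀ z ∈ ball (0 : V (n i)) 1, ‖f j i z‖ ≤ R)
    (hno : ¬ ∃ C : ℝ, ∀ i, Bez (ball (0 : V (n i)) 1) (fun j => f j i) C) :
    ∃ χ : characterSpace ℂ (Fm n), ∀ j, χ (mkF (hf j) (hR j)) = 0 := by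
  have hno' : ¬ ∃ g : ι → Fm n, ∑ j, mkF (hf j) (hR j) * g j = 1 := by
    rintro ⟨g, hg⟩
    apply hno
    choose a a1 a2 a3 using fun j => exists_rep (g j)
    refine ⟨∑ j, ‖g j‖, fun i => ⟨fun j => a j i, fun j => a1 j i, fun j z hz => ?_,
      fun z hz => ?_⟩⟩
    · exact (a2 j i z hz).trans (Finset.single_le_sum (f := fun j => ‖g j‖)
        (fun j _ => norm_nonneg _) (Finset.mem_univ j))
    · have h1 := congrArg (fun F => ev (⟨i, z, hz⟩ : Σ i, ball (0 : V (n i)) 1) F) hg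
      simp only [map_sum, map_mul, map_one] at h1
      rw [← h1]
      refine Finset.sum_congr rfl fun j _ => ?_
      rw [ev_mkF, a3 j]
  have hI : Ideal.span (Set.range fun j => mkF (hf j) (hR j)) ≠ ⊤ := by
    intro htop
    apply hno'
    have h1 : (1 : Fm n) ∈ Ideal.span (Set.range fun j => mkF (hf j) (hR j)) := by
      rw [htop]; trivial
    obtain ⟨g, hg⟩ := (Ideal.mem_span_range_iff_exists_fun).1 h1
    exact ⟨g, by rw [← hg]; exact Finset.sum_congr rfl (fun i _ => mul_comm _ _)⟩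
  obtain ⟨M, hM, hle⟩ := Ideal.exists_le_maximal _ hI
  exact ⟨M.toCharacterSpace, fun i =>
    M.toCharacterSpace_apply_eq_zero_of_mem (hle (Ideal.subset_span ⟨i, rfl⟩))⟩

instance Fl_neBot (χ : characterSpace ℂ (Fm n)) : (Fl χ).NeBot := by
  rw [neBot_iff]
  intro hbot
  have h0 : (∅ : Set (Σ i, ball (0 : V (n i)) 1)) ∈ Fl χ := by rw [hbot]; exact mem_bot
  refine locality χ (ι := Empty) (fun m => m.elim) (fun m => m.elim) (R := 0) (fun m => m.elim)
    (fun m => m.elim) h0 (Q := 0) fun i => ?_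
  refine ⟨fun m => m.elim, fun m => m.elim, fun m => m.elim, fun z hz => ?_⟩
  obtain ⟨hz1, hz2⟩ := hz
  exact absurd hz2 (Set.notMem_empty _)

end Pool.Agent.Helper47.Cor
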