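import Mathlib
import Pool.Agent.Helper47.Cor.Loc2
import Pool.Agent.TH310.Cor.Whit2
import Pool.Agent.W732.Cor.All

/-!
Functions with affine fibres are preserved by the automorphisms of the ball; functions of controlled
complexity on the Whitney cells.
-/

set_option autoImplicit false

open Metric Set Filter Topology WeakDual
open scoped ENNReal

namespace Pool.Agent.Helper47.Cor

open Pool.Agent.Y263.LF (Bez Bez.mono)
open Pool.Agent.Y263.GF (AF AD frac_AF)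
open Pool.Agent.W732.Cor (mv t_mv t_ball)
open Pool.Agent.TH310.Cor (Aut aut_mv Nr one_sub_mv one_sub_inner)

variable {m : ℕ}

theorem den_ne {p : V m} (hp : ‖p‖ = 1) {a : ℂ} (ha : ‖a‖ < 1) {z : V m} (hz : ‖z‖ < 1) :
    (1 + starRingEnd ℂ a * (inner ℂ p z : ℂ)) ≠ 0 := by
  intro h0
  have h1 : ‖starRingEnd ℂ a * (inner ℂ p z : ℂ)‖ = 1 := by
    have h2 : starRingEnd ℂ a * (inner ℂ p z : ℂ) = -1 := by linear_combination h0
    rw [h2, norm_neg, norm_one]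
  rw [norm_mul, RCLike.norm_conj] at h1
  have h2 : ‖(inner ℂ p z : ℂ)‖ ≤ ‖z‖ := by
    refine (norm_inner_le_norm _ _).trans ?_
    rw [hp, one_mul]
  nlinarith [norm_nonneg a, norm_nonneg (inner ℂ p z : ℂ)]

theorem mv_fderiv {p : V m} {a : ℂ} {z : V m}
    (hD : (1 + starRingEnd ℂ a * (inner ℂ p z : ℂ)) ≠ 0) :
    ∃ L : V m →L[ℂ] V m, HasFDerivAt (mv p a) L z ∧ ∀ z' : V m,
      (1 + starRingEnd ℂ a * (inner ℂ p z' : ℂ)) ≠ 0 →
      L (z' - z) = ((1 + starRingEnd ℂ a * (inner ℂ p z' : ℂ)) /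
        (1 + starRingEnd ℂ a * (inner ℂ p z : ℂ))) • (mv p a z' - mv p a z) := by
  obtain ⟨c, hc⟩ : ∃ c : ℂ, c = ((√(1 - ‖a‖ ^ 2) : ℝ) : ℂ) := ⟨_, rfl⟩
  obtain ⟨ip, hip⟩ : ∃ ip : V m →L[ℂ] ℂ, ip = innerSL ℂ p := ⟨_, rfl⟩
  have hipz : ∀ z : V m, (inner ℂ p z : ℂ) = ip z := fun z => by rw [hip]; rfl
  have hmv : mv p a = fun z => (1 + starRingEnd ℂ a * ip z)⁻¹ •
      ((ip z + a) • p + c • (z - ip z • p)) := by
    funext z
    unfold mv
    rw [hipz, ← hc, one_div]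
  simp only [hipz] at hD ⊢
  have h1 : HasFDerivAt (fun z => 1 + starRingEnd ℂ a * ip z) (starRingEnd ℂ a • ip) z := by
    exact (ip.hasFDerivAt.const_mul (starRingEnd ℂ a)).const_add 1
  have h2 : HasFDerivAt (fun z => (1 + starRingEnd ℂ a * ip z)⁻¹)
      (-((1 + starRingEnd ℂ a * ip z) ^ 2)⁻¹ • (starRingEnd ℂ a • ip)) z :=
    (hasDerivAt_inv hD).comp_hasFDerivAt z h1
  have h3 : HasFDerivAt (fun z : V m => (ip z + a) • p + c • (z - ip z • p))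
      (ip.smulRight p + c • (ContinuousLinearMap.id ℂ (V m) - ip.smulRight p)) z := by
    have e1 : HasFDerivAt (fun z : V m => (ip z + a) • p) (ip.smulRight p) z :=
      (ip.hasFDerivAt.add_const a).smul_const p
    have e2 : HasFDerivAt (fun z : V m => ip z • p) (ip.smulRight p) z :=
      ip.hasFDerivAt.smul_const p
    exact e1.add (((hasFDerivAt_id z).sub e2).const_smul c)
  have h4 := h2.smul h3
  rw [hmv]
  refine ⟨_, h4, fun z' hD' => ?_⟩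
  have e1 : ip z' = ip z + ip (z' - z) := by rw [← map_add]; congr 1; abel
  have e2 : z' = z + (z' - z) := by abel
  obtain ⟨v, hv⟩ : ∃ v, v = z' - z := ⟨_, rfl⟩
  rw [← hv] at e1 e2 ⊢
  simp only [add_apply, smul_apply, ContinuousLinearMap.smulRight_apply,
    sub_apply, ContinuousLinearMap.id_apply, smul_eq_mul]
  rw [e1] at hD' ⊢
  rw [e2]
  match_scalars <;> field_simp <;> ring

theorem AD_mv {ψ : V m → ℂ} (h : AD ψ) {p : V m} (hp : ‖p‖ = 1) {a : ℂ}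
    (ha : a ∈ ball (0 : ℂ) 1) : AD (fun z => ψ (mv p a z)) := by
  have A := aut_mv t_mv hp ha
  have ha' : ‖a‖ < 1 := mem_ball_zero_iff.1 ha
  refine ⟨⟨h.1.diff.comp A.d1 A.m1, fun z hz z' hz' => ?_⟩, fun z hz => h.2 _ (A.m1 hz)⟩
  have hD := den_ne hp ha' (mem_ball_zero_iff.1 hz)
  have hD' := den_ne hp ha' (mem_ball_zero_iff.1 hz')
  obtain ⟨L, hL, hL2⟩ := mv_fderiv hD
  have h1 : HasFDerivAt ψ (fderiv ℂ ψ (Pool.Agent.W732.Cor.mv p a z))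
      (Pool.Agent.W732.Cor.mv p a z) :=
    ((h.1.diff _ (A.m1 hz)).differentiableAt (isOpen_ball.mem_nhds (A.m1 hz))).hasFDerivAt
  have h2 := h1.comp z hL
  have h3 : fderiv ℂ (fun z => ψ (Pool.Agent.W732.Cor.mv p a z)) z = _ := h2.fderiv
  rw [h3, ContinuousLinearMap.comp_apply, hL2 z' hD', map_smul, smul_eq_mul,
    h.1.fib _ (A.m1 hz) _ (A.m1 hz')]
  constructor
  · intro h4
    rw [h4, mul_zero]
  · intro h4
    exact (mul_eq_zero.1 h4).resolve_left (div_ne_zero hD' hD)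

/-- level `0`: near `p`, `u` is within `ε` of a polynomial in functions `h ∘ ψ` -/
def Simple (ε : ℝ) (I : Type) (p : V m) (u : I → V m → ℂ) : Prop :=
  ∃ (ρ : ℝ) (K : ℕ) (P : MvPolynomial (Fin K) ℂ) (h : Fin K → I → ℂ → ℂ)
    (ψ : Fin K → I → V m → ℂ), 0 < ρ ∧
    (∀ k i, DifferentiableOn ℂ (h k i) (ball 0 1) ∧ ∀ w ∈ ball (0 : ℂ) 1, ‖h k i w‖ ≤ 1) ∧
    (∀ k i, AD (ψ k i)) ∧
    ∀ i, ∀ z ∈ ball (0 : V m) 1, ‖z - p‖ < ρ →
      ‖u i z - MvPolynomial.eval (fun k => h k i (ψ k i z)) P‖ ≤ ε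

/-- level `k` -/
def Apx (ε : ℝ) : ℕ → (I : Type) → (p : V m) → (I → V m → ℂ) → Prop
  | 0, I, p, u => Simple ε I p u
  | k + 1, I, p, u => ∀ q : V m, ‖q‖ = 1 → (inner ℂ p q : ℂ) = 0 → ∃ κ : ℝ, 0 < κ ∧
      Apx ε k (I × Nr κ) q (fun x z => u x.1 (mv p x.2 z))

theorem Simple.reindex {ε : ℝ} {I I' : Type} {p : V m} {u : I → V m → ℂ} (π : I' → I)
    (h : Simple ε I p u) : Simple ε I' p (fun i => u (π i)) := by
  obtain ⟨ρ, K, P, h, ψ, h0, h1, h2, h3⟩ := h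
  exact ⟨ρ, K, P, fun k i => h k (π i), fun k i => ψ k (π i), h0, fun k i => h1 k _,
    fun k i => h2 k _, fun i => h3 _⟩

theorem Apx.reindex {ε : ℝ} (k : ℕ) : ∀ {I I' : Type} {p : V m} {u : I → V m → ℂ} (π : I' → I),
    Apx ε k I p u → Apx ε k I' p (fun i => u (π i)) := by
  induction k with
  | zero => intro I I' p u π h; exact Simple.reindex π h
  | succ k ih =>
    intro I I' p u π h q hq hpq
    obtain ⟨κ, hκ, h1⟩ := h q hq hpq
    exact ⟨κ, hκ, ih (fun x : I' × Nr κ => ((π x.1, x.2) : I × Nr κ)) h1⟩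

theorem Apx.shrink {ε : ℝ} {k : ℕ} {I : Type} {p q : V m} {u : I → V m → ℂ} {κ κ' : ℝ}
    (hκ : κ' ≤ κ) (h : Apx ε k (I × Nr κ) q (fun x z => u x.1 (mv p x.2 z))) :
    Apx ε k (I × Nr κ') q (fun x z => u x.1 (mv p x.2 z)) :=
  Apx.reindex k (fun x : I × Nr κ' => ((x.1, ⟨x.2.1, x.2.2.1, x.2.2.2.trans_le hκ⟩) : I × Nr κ)) h

theorem mv_near {p : V m} (hp : ‖p‖ = 1) {q : V m} (hpq : (inner ℂ p q : ℂ) = 0) {ρ : ℝ}
    (hρ : 0 < ρ) {a : ℂ} (ha : a ∈ ball (0 : ℂ) 1) (ha2 : ‖1 - a‖ < ρ ^ 2 / 6) {z : V m}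
    (hz : z ∈ ball (0 : V m) 1) (hzq : ‖z - q‖ < 1 / 2) : ‖mv p a z - p‖ < ρ := by
  have A := aut_mv t_mv hp ha
  have h4 := (one_sub_mv t_mv hp ha hpq hz hzq).1
  by_contra hcon
  push Not at hcon
  have h6 := A.m1 hz
  rw [mem_ball_zero_iff] at h6
  have h5 := one_sub_inner hp h6.le hρ.le hcon
  linarith

theorem Apx.succ {ε : ℝ} (k : ℕ) : ∀ {I : Type} {p : V m} {u : I → V m → ℂ}, ‖p‖ = 1 →
    Apx ε k I p u → Apx ε (k + 1) I p u := by
  induction k with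
  | zero =>
    intro I p u hp h q hq hpq
    obtain ⟨ρ, K, P, h, ψ, h0, h1, h2, h3⟩ := h
    refine ⟨ρ ^ 2 / 6, by positivity, 1 / 2, K, P, fun k x => h k x.1,
      fun k x z => ψ k x.1 (mv p x.2 z), by norm_num, fun k x => h1 k _,
      fun k x => AD_mv (h2 k x.1) hp x.2.2.1, fun x z hz hzq => ?_⟩
    have A := aut_mv t_mv hp x.2.2.1
    exact h3 x.1 _ (A.m1 hz) (mv_near hp hpq h0 x.2.2.1 x.2.2.2 hz hzq)
  | succ k ih =>
    intro I p u hp h q hq hpq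
    obtain ⟨κ, hκ, h1⟩ := h q hq hpq
    exact ⟨κ, hκ, ih hq h1⟩

theorem Apx.mono {ε : ℝ} {k k' : ℕ} (hk : k ≤ k') {I : Type} {p : V m} {u : I → V m → ℂ}
    (hp : ‖p‖ = 1) (h : Apx ε k I p u) : Apx ε k' I p u := by
  induction hk with
  | refl => exact h
  | step _ ih => exact Apx.succ _ hp ih

end Pool.Agent.Helper47.Cor
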