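import Mathlib
import Pool.Agent.Helper47.Cor.Aff

/-!
The local theorem at level `0`.
-/

set_option autoImplicit false

open Metric Set Filter Topology WeakDual
open scoped ENNReal

namespace Pool.Agent.Helper47.Cor

open Pool.Agent.Y263.LF (Bez Bez.mono)
open Pool.Agent.Y263.GF (AF AD frac_AF ddiv)
open Pool.Agent.W732.Cor (mv t_mv t_ball)
open Pool.Agent.TH310.Cor (Aut aut_mv Nr one_sub_mv one_sub_inner Lo Lo_ge HB_Lo SolvL HB)

variable {m : ℕ}

/-- global solutions with the function `Lo q` added give local solutions -/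
theorem solvL_of_Lo {q : V m} (hq : ‖q‖ = 1) {I ι : Type} [Fintype ι] {F : I → ι → V m → ℂ}
    {C : ℝ} (h : ∀ i, Bez (ball (0 : V m) 1)
      (fun (o : ι ⊕ Unit) z => o.elim (fun j => F i j z) (fun _ => Lo q z)) C) : SolvL F q := by
  obtain ⟨C', hC'⟩ : ∃ C', C' = max C 1 := ⟨_, rfl⟩
  have hC'1 : 1 ≤ C' := by rw [hC']; exact le_max_right _ _
  have hCC' : C ≤ C' := by rw [hC']; exact le_max_left _ _
  refine ⟨2 * C', 1 / C', by positivity, fun i => ?_⟩
  obtain ⟨g, h1, h2, h3⟩ := h i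
  have hlo : ∀ z ∈ ball (0 : V m) 1 ∩ ball q (1 / C'), 1 / 2 ≤ ‖1 - Lo q z * g (Sum.inr ()) z‖ := by
    rintro z ⟨hz, hzq⟩
    rw [mem_ball, dist_eq_norm] at hzq
    have h4 : ‖Lo q z‖ ≤ 1 / C' / 2 := by
      unfold Lo
      rw [norm_div]
      have h4 : ‖(2 : ℂ)‖ = 2 := by norm_num
      rw [h4]
      have h5 : (1 : ℂ) - inner ℂ q z = inner ℂ q (q - z) := by
        rw [inner_sub_right, inner_self_eq_norm_sq_to_K, hq]
        norm_num
      have h6 : ‖(1 : ℂ) - inner ℂ q z‖ ≤ ‖z - q‖ := by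
        rw [h5]
        refine (norm_inner_le_norm _ _).trans ?_
        rw [hq, one_mul, norm_sub_rev]
      linarith
    have h5 : ‖Lo q z * g (Sum.inr ()) z‖ ≤ 1 / 2 := by
      rw [norm_mul]
      calc ‖Lo q z‖ * ‖g (Sum.inr ()) z‖ ≤ (1 / C' / 2) * C' := by
            gcongr
            exact (h2 _ z hz).trans hCC'
        _ = 1 / 2 := by field_simp
    have h6 := norm_sub_norm_le (1 : ℂ) (Lo q z * g (Sum.inr ()) z)
    rw [norm_one] at h6
    linarith
  have hsb : ball (0 : V m) 1 ∩ ball q (1 / C') ⊆ ball (0 : V m) 1 := inter_subset_left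
  have hne : ∀ z ∈ ball (0 : V m) 1 ∩ ball q (1 / C'), 1 - Lo q z * g (Sum.inr ()) z ≠ 0 := by
    intro z hz h4
    have h5 := hlo z hz
    rw [h4, norm_zero] at h5
    norm_num at h5
  refine ⟨fun j z => g (Sum.inl j) z * (1 - Lo q z * g (Sum.inr ()) z)⁻¹, ?_, ?_, ?_⟩
  · intro j
    have h4 : DifferentiableOn ℂ (fun z => 1 - Lo q z * g (Sum.inr ()) z)
        (ball (0 : V m) 1 ∩ ball q (1 / C')) := by
      have h5 : DifferentiableOn ℂ (fun z => Lo q z * g (Sum.inr ()) z) (ball (0 : V m) 1) :=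
        (HB_Lo hq).1.mul (h1 _)
      exact (h5.mono hsb).const_sub 1
    exact ((h1 _).mono hsb).mul (h4.inv hne)
  · intro j z hz
    rw [norm_mul, norm_inv]
    have h4 := hlo z hz
    have h5 : ‖1 - Lo q z * g (Sum.inr ()) z‖⁻¹ ≤ 2 := by
      rw [inv_le_comm₀ (by linarith) (by norm_num)]
      linarith
    calc ‖g (Sum.inl j) z‖ * ‖1 - Lo q z * g (Sum.inr ()) z‖⁻¹ ≤ C' * 2 := by
          gcongr
          exact (h2 _ z hz.1).trans hCC'
      _ = 2 * C' := by ring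
  · intro z hz
    have h4 := h3 z hz.1
    rw [Fintype.sum_sum_type] at h4
    simp only [Sum.elim_inl, Sum.elim_inr, Finset.univ_unique, Finset.sum_singleton] at h4
    have h5 : ∑ j, F i j z * g (Sum.inl j) z = 1 - Lo q z * g (Sum.inr ()) z := by
      rw [← h4]
      change _ = _ + Lo q z * g (Sum.inr ()) z - Lo q z * g (Sum.inr ()) z
      ring
    have h6 : ∑ j, F i j z * (g (Sum.inl j) z * (1 - Lo q z * g (Sum.inr ()) z)⁻¹) =
        (∑ j, F i j z * g (Sum.inl j) z) * (1 - Lo q z * g (Sum.inr ()) z)⁻¹ := by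
      rw [Finset.sum_mul]
      exact Finset.sum_congr rfl fun j _ => by ring
    rw [h6, h5]
    exact mul_inv_cancel₀ (hne z hz)

theorem AD_inner {p : V m} (hp : ‖p‖ = 1) : AD (fun z : V m => (inner ℂ p z : ℂ)) := by
  have h1 := frac_AF (X := V m) (innerSL ℂ p) 0 0 1 (by simp)
  refine ⟨?_, fun z hz => ?_⟩
  · have e : (fun z : V m => (inner ℂ p z : ℂ)) =
        fun z => ((innerSL ℂ p : V m →L[ℂ] ℂ) z + 0) / ((0 : V m →L[ℂ] ℂ) z + 1) := by
      funext z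
      simp
    rw [e]
    exact h1
  · refine (norm_inner_le_norm _ _).trans_lt ?_
    rw [hp, one_mul]
    exact mem_ball_zero_iff.1 hz

/-- along the filter of a character which annihilates `Lo p`, the points tend to `p` -/
theorem near_mem {I : Type} {p : V m} (hp : ‖p‖ = 1) (χ : characterSpace ℂ (Fm fun _ : I => m))
    {y : Fm fun _ : I => m} (hy : ∀ s, ev s y = Lo p s.2) (hχ : χ y = 0) {ρ : ℝ} (hρ : 0 < ρ) :
    {s : Σ _ : I, ball (0 : V m) 1 | ‖(s.2 : V m) - p‖ < ρ} ∈ Fl χ := by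
  have hyR : y ∈ RF (fun _ : I => m) := by
    refine ⟨fun _ w => (1 - w) / 2, fun _ z => inner ℂ p z, 1, fun _ => ?_, fun _ w hw => ?_,
      fun _ => AD_inner hp, fun s => hy s⟩
    · fun_prop
    · rw [norm_div]
      have h2 : ‖(2 : ℂ)‖ = 2 := by norm_num
      rw [h2, div_le_one (by norm_num)]
      have h3 := norm_sub_le (1 : ℂ) w
      rw [norm_one] at h3
      have h4 := mem_ball_zero_iff.1 hw
      linarith
  have h1 : Tendsto (fun s => ev s y) (Fl χ) (𝓝 (χ y)) :=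
    Fl_tendsto χ (Subalgebra.le_topologicalClosure _ (Algebra.subset_adjoin hyR))
  rw [hχ, tendsto_zero_iff_norm_tendsto_zero] at h1
  have h2 := h1.eventually_lt_const (show (0 : ℝ) < ρ ^ 2 / 4 by positivity)
  filter_upwards [h2] with s hs
  by_contra hcon
  have h3 : ρ ≤ ‖(s.2 : V m) - p‖ := not_lt.1 hcon
  have h4 := Lo_ge hp s.2.2 hρ.le h3
  rw [hy s] at hs
  linarith

/-- the element given by a polynomial in functions `h ∘ ψ` -/
theorem exists_poly {I : Type} {K : ℕ} (P : MvPolynomial (Fin K) ℂ) (h : Fin K → I → ℂ → ℂ)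
    (ψ : Fin K → I → V m → ℂ)
    (h1 : ∀ k i, DifferentiableOn ℂ (h k i) (ball 0 1) ∧ ∀ w ∈ ball (0 : ℂ) 1, ‖h k i w‖ ≤ 1)
    (h2 : ∀ k i, AD (ψ k i)) :
    ∃ v ∈ RA (fun _ : I => m), ∀ s,
      ev s v = MvPolynomial.eval (fun k => h k s.1 (ψ k s.1 s.2)) P := by
  have hd : ∀ k i, DifferentiableOn ℂ (fun z => h k i (ψ k i z)) (ball (0 : V m) 1) := fun k i =>
    (h1 k i).1.comp (h2 k i).1.diff fun z hz => mem_ball_zero_iff.2 ((h2 k i).2 z hz)
  have hb : ∀ k i, ∀ z ∈ ball (0 : V m) 1, ‖h k i (ψ k i z)‖ ≤ 1 := fun k i z hz =>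
    (h1 k i).2 _ (mem_ball_zero_iff.2 ((h2 k i).2 z hz))
  let x : Fin K → Fm fun _ : I => m := fun k => mkF (hd k) (hb k)
  have hx : ∀ k, x k ∈ RF (fun _ : I => m) := fun k =>
    ⟨h k, ψ k, 1, fun i => (h1 k i).1, fun i => (h1 k i).2, fun i => h2 k i, fun s => rfl⟩
  refine ⟨MvPolynomial.aeval x P, ?_, fun s => ?_⟩
  · refine Subalgebra.le_topologicalClosure _ ?_
    have h3 : MvPolynomial.aeval x P ∈ Algebra.adjoin ℂ (Set.range x) := by
      rw [Algebra.adjoin_range_eq_range_aeval]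
      exact ⟨P, rfl⟩
    refine Algebra.adjoin_mono ?_ h3
    rintro _ ⟨k, rfl⟩
    exact hx k
  · rw [MvPolynomial.comp_aeval_apply]
    rfl

/-- the data of the Bezout equation -/
noncomputable def comb {I ι Λ : Type} (T : ℝ) (c : Λ → ℂ) (f : ι → I → V m → ℂ)
    (u : Λ → I → V m → ℂ) (i : I) (o : ι ⊕ Λ) (z : V m) : ℂ :=
  o.elim (fun j => f j i z / T) (fun l => (u l i z - c l) / T)

theorem comb_HB {I ι Λ : Type} {T : ℝ} (hT : 0 < T) {c : Λ → ℂ} {f : ι → I → V m → ℂ}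
    {u : Λ → I → V m → ℂ} (hf : ∀ j i, DifferentiableOn ℂ (f j i) (ball 0 1))
    (hu : ∀ l i, DifferentiableOn ℂ (u l i) (ball 0 1))
    (hfT : ∀ j i, ∀ z ∈ ball (0 : V m) 1, ‖f j i z‖ ≤ T)
    (huT : ∀ l i, ∀ z ∈ ball (0 : V m) 1, ‖u l i z - c l‖ ≤ T) (i : I) (o : ι ⊕ Λ) :
    HB (comb T c f u i o) := by
  have hTn : ‖(T : ℂ)‖ = T := by rw [Complex.norm_real, Real.norm_of_nonneg hT.le]
  rcases o with j | l
  · refine ⟨ddiv (hf j i) _, fun z hz => ?_⟩
    change ‖f j i z / T‖ ≤ 1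
    rw [norm_div, hTn, div_le_one hT]
    exact hfT j i z hz
  · refine ⟨ddiv ((hu l i).sub_const _) _, fun z hz => ?_⟩
    change ‖(u l i z - c l) / T‖ ≤ 1
    rw [norm_div, hTn, div_le_one hT]
    exact huT l i z hz

/-- **The local theorem at level `0`.** -/
theorem loc0 {I ι Λ : Type} [Fintype ι] [Fintype Λ] {p : V m} (hp : ‖p‖ = 1) {T : ℝ}
    (hT : 0 < T) {c : Λ → ℂ} {f : ι → I → V m → ℂ}
    {u : Λ → I → V m → ℂ} (hf : ∀ j i, DifferentiableOn ℂ (f j i) (ball 0 1))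
    (hu : ∀ l i, DifferentiableOn ℂ (u l i) (ball 0 1))
    (hfT : ∀ j i, ∀ z ∈ ball (0 : V m) 1, ‖f j i z‖ ≤ T)
    (huT : ∀ l i, ∀ z ∈ ball (0 : V m) 1, ‖u l i z - c l‖ ≤ T) {ε ρ₀ Q : ℝ} (hε : 0 < ε)
    (hρ₀ : 0 < ρ₀) (hapx : ∀ l, Simple (ε / 8) I p (u l))
    (hsol : ∀ i, Bez {z : V m | z ∈ ball (0 : V m) 1 ∧ ‖z - p‖ < ρ₀ ∧ ∀ l, ‖u l i z - c l‖ < ε}
      (fun j => f j i) Q) : SolvL (comb T c f u) p := by
  classical
  by_contra hns
  have hTn : ‖(T : ℂ)‖ = T := by rw [Complex.norm_real, Real.norm_of_nonneg hT.le]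
  have hTc : (T : ℂ) ≠ 0 := by exact_mod_cast hT.ne'
  have hHB := comb_HB hT hf hu hfT huT
  -- the character
  let G : (ι ⊕ Λ) ⊕ Unit → I → V m → ℂ := fun o i z =>
    o.elim (fun j => comb T c f u i j z) (fun _ => Lo p z)
  have hGd : ∀ o i, DifferentiableOn ℂ (G o i) (ball (0 : V m) 1) := by
    rintro (o | o) i
    · exact (hHB i o).1
    · exact (HB_Lo hp).1
  have hGb : ∀ o i, ∀ z ∈ ball (0 : V m) 1, ‖G o i z‖ ≤ 1 := by
    rintro (o | o) i
    · exact (hHB i o).2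
    · exact (HB_Lo hp).2
  obtain ⟨χ, hχ⟩ := exists_chi (n := fun _ : I => m) G hGd hGb (by
    rintro ⟨C, hC⟩
    exact hns (solvL_of_Lo hp hC))
  have hnear : ∀ ρ : ℝ, 0 < ρ → {s : Σ _ : I, ball (0 : V m) 1 | ‖(s.2 : V m) - p‖ < ρ} ∈ Fl χ :=
    fun ρ hρ => near_mem hp χ (y := mkF (hGd (Sum.inr ())) (hGb (Sum.inr ()))) (fun s => rfl)
      (hχ (Sum.inr ())) hρ
  -- the approximating elements
  choose ρ K P h ψ hρ h1 h2 h3 using hapx
  choose v hv hev using fun l => exists_poly (P l) (h l) (ψ l) (h1 l) (h2 l)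
  have hvt : ∀ l, ∀ η : ℝ, 0 < η → {s | ‖ev s (v l) - χ (v l)‖ < η} ∈ Fl χ := by
    intro l η hη
    have e1 := Metric.tendsto_nhds.1 (Fl_tendsto χ (hv l)) η hη
    filter_upwards [e1] with s hs
    rw [dist_eq_norm] at hs
    exact hs
  have hd : ∀ l, ‖χ (v l) - c l‖ ≤ ε / 4 := by
    intro l
    by_contra hcon
    push Not at hcon
    have hS := Filter.inter_mem (hvt l (ε / 16) (by positivity)) (hnear (ρ l) (hρ l))
    refine locality χ (ι := Unit) (fun _ => G (Sum.inl (Sum.inr l))) (fun _ => hGd _)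
      (fun _ => hGb _) (fun _ => hχ _) hS (Q := T / (ε / 16)) fun i => ?_
    have key : ∀ z : V m, (∃ hz : z ∈ ball (0 : V m) 1, (⟨i, z, hz⟩ : Σ _ : I, ball (0 : V m) 1) ∈
        {s | ‖ev s (v l) - χ (v l)‖ < ε / 16} ∩
          {s : Σ _ : I, ball (0 : V m) 1 | ‖(s.2 : V m) - p‖ < ρ l}) →
        ε / 16 / T ≤ ‖G (Sum.inl (Sum.inr l)) i z‖ := by
      rintro z ⟨hz, hz1, hz2⟩
      have e1 : ‖ev (⟨i, z, hz⟩ : Σ _ : I, ball (0 : V m) 1) (v l) - χ (v l)‖ < ε / 16 := hz1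
      have e2 := h3 l i z hz hz2
      rw [hev l] at e1
      simp only at e1
      change ε / 16 / T ≤ ‖(u l i z - c l) / T‖
      rw [norm_div, hTn]
      gcongr
      have e3 : χ (v l) - c l = (u l i z - c l) -
          (u l i z - MvPolynomial.eval (fun k => h l k i (ψ l k i z)) (P l)) -
          (MvPolynomial.eval (fun k => h l k i (ψ l k i z)) (P l) - χ (v l)) := by ring
      rw [e3] at hcon
      have e4 := norm_sub_le ((u l i z - c l) -
          (u l i z - MvPolynomial.eval (fun k => h l k i (ψ l k i z)) (P l)))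
          (MvPolynomial.eval (fun k => h l k i (ψ l k i z)) (P l) - χ (v l))
      have e5 := norm_sub_le (u l i z - c l)
          (u l i z - MvPolynomial.eval (fun k => h l k i (ψ l k i z)) (P l))
      linarith
    have hpos : 0 < ε / 16 / T := by positivity
    refine ⟨fun _ z => (G (Sum.inl (Sum.inr l)) i z)⁻¹, fun _ => ?_, fun _ z hz => ?_,
      fun z hz => ?_⟩
    · refine DifferentiableOn.inv ((hGd _ i).mono fun z hz => ?_) fun z hz h0 => ?_
      · obtain ⟨hz, -⟩ := hz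
        exact hz
      · have e1 := key z hz
        rw [h0, norm_zero] at e1
        linarith
    · have e1 := key z hz
      rw [norm_inv, show T / (ε / 16) = (ε / 16 / T)⁻¹ by rw [inv_div]]
      exact inv_anti₀ hpos e1
    · have e1 := key z hz
      simp only [Finset.univ_unique, Finset.sum_singleton]
      refine mul_inv_cancel₀ fun h0 => ?_
      rw [h0, norm_zero] at e1
      linarith
  -- the final set
  have hS : ({s : Σ _ : I, ball (0 : V m) 1 | ‖(s.2 : V m) - p‖ < ρ₀} ∩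
      ⋂ l, ({s | ‖ev s (v l) - χ (v l)‖ < ε / 16} ∩
        {s : Σ _ : I, ball (0 : V m) 1 | ‖(s.2 : V m) - p‖ < ρ l})) ∈ Fl χ :=
    Filter.inter_mem (hnear ρ₀ hρ₀) (Filter.iInter_mem.2 fun l =>
      Filter.inter_mem (hvt l (ε / 16) (by positivity)) (hnear (ρ l) (hρ l)))
  refine locality χ (ι := ι) (fun j => G (Sum.inl (Sum.inl j))) (fun j => hGd _)
    (fun j => hGb _) (fun j => hχ _) hS (Q := T * Q) fun i => ?_
  obtain ⟨g, g1, g2, g3⟩ := hsol i
  have hsub : {z : V m | ∃ hz : z ∈ ball (0 : V m) 1, (⟨i, z, hz⟩ : Σ _ : I, ball (0 : V m) 1) ∈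
      ({s : Σ _ : I, ball (0 : V m) 1 | ‖(s.2 : V m) - p‖ < ρ₀} ∩
      ⋂ l, ({s | ‖ev s (v l) - χ (v l)‖ < ε / 16} ∩
        {s : Σ _ : I, ball (0 : V m) 1 | ‖(s.2 : V m) - p‖ < ρ l}))} ⊆
      {z : V m | z ∈ ball (0 : V m) 1 ∧ ‖z - p‖ < ρ₀ ∧ ∀ l, ‖u l i z - c l‖ < ε} := by
    rintro z ⟨hz, hz1, hz2⟩
    refine ⟨hz, hz1, fun l => ?_⟩
    obtain ⟨hz3, hz4⟩ := mem_iInter.1 hz2 l
    have e1 : ‖ev (⟨i, z, hz⟩ : Σ _ : I, ball (0 : V m) 1) (v l) - χ (v l)‖ < ε / 16 := hz3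
    have e2 := h3 l i z hz hz4
    rw [hev l] at e1
    simp only at e1
    have e3 : u l i z - c l =
        (u l i z - MvPolynomial.eval (fun k => h l k i (ψ l k i z)) (P l)) +
        (MvPolynomial.eval (fun k => h l k i (ψ l k i z)) (P l) - χ (v l)) +
        (χ (v l) - c l) := by ring
    rw [e3]
    have e4 := norm_add₃_le (a := u l i z - MvPolynomial.eval (fun k => h l k i (ψ l k i z)) (P l))
      (b := MvPolynomial.eval (fun k => h l k i (ψ l k i z)) (P l) - χ (v l))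
      (c := χ (v l) - c l)
    have e5 := hd l
    linarith
  refine ⟨fun j z => T * g j z, fun j => ((g1 j).mono hsub).const_mul _, fun j z hz => ?_,
    fun z hz => ?_⟩
  · rw [norm_mul, hTn]
    have := g2 j z (hsub hz)
    gcongr
  · rw [← g3 z (hsub hz)]
    refine Finset.sum_congr rfl fun j _ => ?_
    change f j i z / T * (T * g j z) = _
    field_simp

end Pool.Agent.Helper47.Cor
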