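import Mathlib
import Pool.Agent.Helper47.Cor.Base

/-!
The local theorem at all levels, and the global theorem.
-/

set_option autoImplicit false

open Metric Set Filter Topology WeakDual
open scoped ENNReal

namespace Pool.Agent.Helper47.Cor

open Pool.Agent.Y263.LF (Bez Bez.mono)
open Pool.Agent.Y263.GF (AF AD frac_AF ddiv)
open Pool.Agent.W732.Cor (mv t_mv t_ball)
open Pool.Agent.TH310.Cor (Aut aut_mv Nr one_sub_mv one_sub_inner Lo Lo_ge HB_Lo SolvL HB whit2)

variable {m : ℕ}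

theorem low_of_sol {ι : Type} [Fintype ι] {Ω : Set (V m)} {f : ι → V m → ℂ} {Q : ℝ}
    (h : Bez Ω f Q) {z : V m} (hz : z ∈ Ω) : 1 / max Q 1 ≤ ∑ j, ‖f j z‖ := by
  obtain ⟨g, -, g2, g3⟩ := h
  have hQ : 0 < max Q 1 := lt_max_of_lt_right one_pos
  rw [div_le_iff₀ hQ, Finset.sum_mul]
  have h1 : ‖∑ j, f j z * g j z‖ = 1 := by rw [g3 z hz, norm_one]
  refine h1.symm.le.trans ((norm_sum_le _ _).trans (Finset.sum_le_sum fun j _ => ?_))
  rw [norm_mul]
  have := (g2 j z hz).trans (le_max_left Q 1)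
  gcongr

theorem exists_min {Λ : Type} [Fintype Λ] (κ : Λ → ℝ) (h : ∀ l, 0 < κ l) {t : ℝ} (ht : 0 < t) :
    ∃ κ₀ : ℝ, 0 < κ₀ ∧ κ₀ ≤ t ∧ ∀ l, κ₀ ≤ κ l := by
  classical
  have key : ∀ s : Finset Λ, ∃ κ₀ : ℝ, 0 < κ₀ ∧ κ₀ ≤ t ∧ ∀ l ∈ s, κ₀ ≤ κ l := by
    intro s
    induction s using Finset.induction_on with
    | empty => exact ⟨t, ht, le_rfl, by simp⟩
    | insert a s ha ih =>
      obtain ⟨κ₀, h1, h2, h3⟩ := ih
      refine ⟨min κ₀ (κ a), lt_min h1 (h a), (min_le_left _ _).trans h2, fun l hl => ?_⟩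
      rcases Finset.mem_insert.1 hl with rfl | hl
      · exact min_le_right _ _
      · exact (min_le_left _ _).trans (h3 l hl)
  obtain ⟨κ₀, h1, h2, h3⟩ := key Finset.univ
  exact ⟨κ₀, h1, h2, fun l => h3 l (Finset.mem_univ l)⟩

/-- **The local theorem.** -/
theorem lock (k : ℕ) : ∀ {I ι Λ : Type} [Fintype ι] [Fintype Λ] {p : V m} (_ : ‖p‖ = 1) {T : ℝ}
    (_ : 0 < T) {c : Λ → ℂ} {f : ι → I → V m → ℂ}
    {u : Λ → I → V m → ℂ} (_ : ∀ j i, DifferentiableOn ℂ (f j i) (ball 0 1))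
    (_ : ∀ l i, DifferentiableOn ℂ (u l i) (ball 0 1))
    (_ : ∀ j i, ∀ z ∈ ball (0 : V m) 1, ‖f j i z‖ ≤ T)
    (_ : ∀ l i, ∀ z ∈ ball (0 : V m) 1, ‖u l i z - c l‖ ≤ T) {ε ρ₀ Q : ℝ} (_ : 0 < ε)
    (_ : 0 < ρ₀) (_ : ∀ l, Apx (ε / 8) k I p (u l))
    (_ : ∀ i, Bez {z : V m | z ∈ ball (0 : V m) 1 ∧ ‖z - p‖ < ρ₀ ∧ ∀ l, ‖u l i z - c l‖ < ε}
      (fun j => f j i) Q), SolvL (comb T c f u) p := by
  induction k with
  | zero =>
    intro I ι Λ _ _ p hp T hT c f u hf hu hfT huT ε ρ₀ Q hε hρ₀ hapx hsol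
    exact loc0 hp hT hf hu hfT huT hε hρ₀ hapx hsol
  | succ k ih =>
    intro I ι Λ _ _ p hp T hT c f u hf hu hfT huT ε ρ₀ Q hε hρ₀ hapx hsol
    have hTn : ‖(T : ℂ)‖ = T := by rw [Complex.norm_real, Real.norm_of_nonneg hT.le]
    have hHB := comb_HB hT hf hu hfT huT
    have hQ1 : 0 < max Q 1 := lt_max_of_lt_right one_pos
    refine whit2 t_mv t_ball hp hHB (δ := min (1 / max Q 1 / T) (ε / T)) (by positivity) hρ₀ ?_ ?_
    · rintro i z ⟨hz, hzp⟩
      rw [mem_ball, dist_eq_norm] at hzp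
      rw [Fintype.sum_sum_type]
      have n1 : 0 ≤ ∑ j, ‖comb T c f u i (Sum.inl j) z‖ :=
        Finset.sum_nonneg fun _ _ => norm_nonneg _
      have n2 : 0 ≤ ∑ l, ‖comb T c f u i (Sum.inr l) z‖ :=
        Finset.sum_nonneg fun _ _ => norm_nonneg _
      by_cases hl : ∀ l, ‖u l i z - c l‖ < ε
      · have h1 := low_of_sol (hsol i) (z := z) ⟨hz, hzp, hl⟩
        have h2 : ∑ j, ‖comb T c f u i (Sum.inl j) z‖ = (∑ j, ‖f j i z‖) / T := by
          rw [Finset.sum_div]
          refine Finset.sum_congr rfl fun j _ => ?_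
          change ‖f j i z / T‖ = _
          rw [norm_div, hTn]
        have h3 : 1 / max Q 1 / T ≤ (∑ j, ‖f j i z‖) / T := by gcongr
        have h4 := min_le_left (1 / max Q 1 / T) (ε / T)
        linarith
      · push Not at hl
        obtain ⟨l, hl⟩ := hl
        have h2 : ε / T ≤ ‖comb T c f u i (Sum.inr l) z‖ := by
          change _ ≤ ‖(u l i z - c l) / T‖
          rw [norm_div, hTn]
          gcongr
        have h3 := Finset.single_le_sum (f := fun l => ‖comb T c f u i (Sum.inr l) z‖)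
          (fun _ _ => norm_nonneg _) (Finset.mem_univ l)
        have h4 := min_le_right (1 / max Q 1 / T) (ε / T)
        linarith
    · intro q hq hpq
      choose κ hκ hκ2 using fun l => hapx l q hq hpq
      obtain ⟨κ₀, h0, h1, h2⟩ := exists_min κ hκ (t := ρ₀ ^ 2 / 6) (by positivity)
      refine ⟨κ₀, h0, ?_⟩
      have hA : ∀ x : I × Nr κ₀, Aut (mv p x.2) (mv p (-(x.2 : ℂ))) :=
        fun x => aut_mv t_mv hp x.2.2.1
      have h3 := ih (I := I × Nr κ₀) hq hT (c := c) (f := fun j x z => f j x.1 (mv p x.2 z))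
        (u := fun l x z => u l x.1 (mv p x.2 z))
        (fun j x => (hf j x.1).comp (hA x).d1 (hA x).m1)
        (fun l x => (hu l x.1).comp (hA x).d1 (hA x).m1)
        (fun j x z hz => hfT j x.1 _ ((hA x).m1 hz))
        (fun l x z hz => huT l x.1 _ ((hA x).m1 hz)) hε (ρ₀ := 1 / 2) (Q := Q) (by norm_num)
        (fun l => (hκ2 l).shrink (h2 l)) (fun x => by
          refine Bez.comp (φ := mv p x.2) ((hA x).d1.mono fun z hz => hz.1) ?_ (hsol x.1)
          rintro z ⟨hz, hzq, hl⟩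
          exact ⟨(hA x).m1 hz, mv_near hp hpq hρ₀ x.2.2.1 (x.2.2.2.trans_le h1) hz hzq, hl⟩)
      have e : (fun (x : I × Nr κ₀) j z => comb T c f u x.1 j (mv p x.2 z)) =
          comb T c (fun j (x : I × Nr κ₀) z => f j x.1 (mv p x.2 z))
            (fun l x z => u l x.1 (mv p x.2 z)) := by
        funext x o z
        rcases o with o | o <;> rfl
      rw [e]
      exact h3

/-- equicontinuity of bounded holomorphic functions at interior points -/
theorem equi {p : V m} (hp : ‖p‖ < 1) {f : V m → ℂ} (hf : HB f) {z : V m}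
    (hz : ‖z - p‖ < 1 - ‖p‖) : ‖f z - f p‖ ≤ 2 * ‖z - p‖ / (1 - ‖p‖) := by
  have hp0 : 0 < 1 - ‖p‖ := by linarith
  rcases eq_or_ne z p with h0 | h0
  · rw [h0, sub_self, norm_zero, sub_self, norm_zero]; simp
  have hn : 0 < ‖z - p‖ := norm_pos_iff.2 (sub_ne_zero.2 h0)
  have hmaps : MapsTo (fun l : ℂ => p + l • (z - p)) (ball 0 ((1 - ‖p‖) / ‖z - p‖))
      (ball (0 : V m) 1) := by
    intro l hl
    rw [mem_ball_zero_iff, lt_div_iff₀ hn] at hl
    rw [mem_ball_zero_iff]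
    have h1 := norm_add_le p (l • (z - p))
    rw [norm_smul] at h1
    linarith
  have hd : DifferentiableOn ℂ (fun l : ℂ => f (p + l • (z - p)))
      (ball 0 ((1 - ‖p‖) / ‖z - p‖)) := by
    have h1 : Differentiable ℂ (fun l : ℂ => p + l • (z - p)) := by fun_prop
    exact hf.1.comp h1.differentiableOn hmaps
  have h0b : (0 : ℂ) ∈ ball (0 : ℂ) ((1 - ‖p‖) / ‖z - p‖) := mem_ball_self (by positivity)
  have hb : MapsTo (fun l : ℂ => f (p + l • (z - p))) (ball 0 ((1 - ‖p‖) / ‖z - p‖))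
      (closedBall ((fun l : ℂ => f (p + l • (z - p))) 0) 2) := by
    intro l hl
    rw [mem_closedBall, dist_eq_norm]
    have h1 := hf.2 _ (hmaps hl)
    have h2 := hf.2 _ (hmaps h0b)
    have h3 := norm_sub_le (f (p + l • (z - p))) (f (p + (0 : ℂ) • (z - p)))
    simp only at h1 h2
    linarith
  have h3 := Complex.dist_le_div_mul_dist_of_mapsTo_ball hd hb (z := 1)
    (by rw [mem_ball_zero_iff, norm_one, lt_div_iff₀ hn, one_mul]; exact hz)
  simp only [one_smul, zero_smul, dist_zero_right, norm_one, mul_one, add_zero,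
    add_sub_cancel] at h3
  rw [dist_eq_norm] at h3
  refine h3.trans (le_of_eq ?_)
  field_simp

/-- the coordinate functions tend to a point of the closed ball along the filter of a character -/
theorem exists_pt {I : Type} (χ : characterSpace ℂ (Fm fun _ : I => m)) :
    ∃ p : V m, ‖p‖ ≤ 1 ∧ Tendsto (fun s : Σ _ : I, ball (0 : V m) 1 => (s.2 : V m)) (Fl χ)
      (𝓝 p) := by
  have hd : ∀ e : V m, ∀ _ : I, DifferentiableOn ℂ (fun z : V m => (inner ℂ e z : ℂ))
      (ball 0 1) := fun e _ => (innerSL ℂ e).differentiable.differentiableOn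
  have hb : ∀ e : V m, ‖e‖ = 1 → ∀ _ : I, ∀ z ∈ ball (0 : V m) 1,
      ‖(inner ℂ e z : ℂ)‖ ≤ 1 := by
    intro e he _ z hz
    exact ((AD_inner he).2 z hz).le
  have hsn : ∀ i : Fin m, ‖(EuclideanSpace.single i (1 : ℂ) : V m)‖ = 1 := by
    intro i; simp
  let x : Fin m → Fm fun _ : I => m := fun i =>
    mkF (hd (EuclideanSpace.single i (1 : ℂ))) (hb _ (hsn i))
  have hx : ∀ i, x i ∈ RF (fun _ : I => m) := fun i =>
    ⟨fun _ w => w, fun _ z => inner ℂ (EuclideanSpace.single i (1 : ℂ)) z, 1,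
      fun _ => differentiableOn_id, fun _ w hw => (mem_ball_zero_iff.1 hw).le,
      fun _ => AD_inner (hsn i), fun s => rfl⟩
  have hxt : ∀ i, Tendsto (fun s => ev s (x i)) (Fl χ) (𝓝 (χ (x i))) := fun i =>
    Fl_tendsto χ (Subalgebra.le_topologicalClosure _ (Algebra.subset_adjoin (hx i)))
  have hxe : ∀ i (s : Σ _ : I, ball (0 : V m) 1), ev s (x i) = (s.2 : V m) i := by
    intro i s
    change (inner ℂ (EuclideanSpace.single i (1 : ℂ)) (s.2 : V m) : ℂ) = _
    rw [EuclideanSpace.inner_single_left]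
    simp
  have h1 : Tendsto (fun s : Σ _ : I, ball (0 : V m) 1 => (s.2 : V m)) (Fl χ)
      (𝓝 (WithLp.toLp 2 (fun i => χ (x i)) : V m)) := by
    have h2 : Tendsto (fun s : Σ _ : I, ball (0 : V m) 1 => (fun i => (s.2 : V m) i)) (Fl χ)
        (𝓝 (fun i => χ (x i))) := by
      rw [tendsto_pi_nhds]
      intro i
      refine (hxt i).congr fun s => hxe i s
    exact ((PiLp.continuous_toLp 2 (fun _ : Fin m => ℂ)).tendsto _).comp h2
  exact ⟨_, le_of_tendsto h1.norm (Eventually.of_forall fun s => (mem_ball_zero_iff.1 s.2.2).le),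
    h1⟩

/-- **Locality for tame functions.** -/
theorem tame_locality {I : Type} (χ : characterSpace ℂ (Fm fun _ : I => m)) {ι Λ : Type}
    [Fintype ι] [Fintype Λ] (f : ι → I → V m → ℂ) (u : Λ → I → V m → ℂ)
    (hf : ∀ j i, DifferentiableOn ℂ (f j i) (ball 0 1))
    (hu : ∀ l i, DifferentiableOn ℂ (u l i) (ball 0 1)) {R : ℝ}
    (hfR : ∀ j i, ∀ z ∈ ball (0 : V m) 1, ‖f j i z‖ ≤ R)
    (huR : ∀ l i, ∀ z ∈ ball (0 : V m) 1, ‖u l i z‖ ≤ R)
    (hχ : ∀ j, χ (mkF (hf j) (hfR j)) = 0) {ε Q : ℝ} (hε : 0 < ε)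
    (htame : ∀ l, ∀ p : V m, ‖p‖ = 1 → ∃ k, Apx (ε / 8) k I p (u l)) :
    ¬ ∀ i, Bez {z : V m | z ∈ ball (0 : V m) 1 ∧ ∀ l, ‖u l i z - χ (mkF (hu l) (huR l))‖ < ε}
      (fun j => f j i) Q := by
  classical
  intro hsol
  obtain ⟨c, hc⟩ : ∃ c : Λ → ℂ, c = fun l => χ (mkF (hu l) (huR l)) := ⟨_, rfl⟩
  have hcl : ∀ l, χ (mkF (hu l) (huR l)) = c l := fun l => by rw [hc]
  simp only [hcl] at hsol
  obtain ⟨T, hT0, hTf, hTu⟩ : ∃ T : ℝ, 0 < T ∧ R ≤ T ∧ ∀ l, R + ‖c l‖ ≤ T := by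
    refine ⟨1 + |R| + ∑ l, ‖c l‖, ?_, ?_, fun l => ?_⟩
    · have : 0 ≤ ∑ l, ‖c l‖ := Finset.sum_nonneg fun _ _ => norm_nonneg _
      have := abs_nonneg R
      linarith
    · have : 0 ≤ ∑ l, ‖c l‖ := Finset.sum_nonneg fun _ _ => norm_nonneg _
      have := le_abs_self R
      linarith
    · have h1 := Finset.single_le_sum (f := fun l => ‖c l‖) (fun _ _ => norm_nonneg _)
        (Finset.mem_univ l)
      have := le_abs_self R
      linarith
  have hTc : (T : ℂ) ≠ 0 := by exact_mod_cast hT0.ne'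
  have hTn : ‖(T : ℂ)‖ = T := by rw [Complex.norm_real, Real.norm_of_nonneg hT0.le]
  have hfT : ∀ j i, ∀ z ∈ ball (0 : V m) 1, ‖f j i z‖ ≤ T := fun j i z hz =>
    (hfR j i z hz).trans hTf
  have huT : ∀ l i, ∀ z ∈ ball (0 : V m) 1, ‖u l i z - c l‖ ≤ T := fun l i z hz =>
    (norm_sub_le _ _).trans ((add_le_add (huR l i z hz) le_rfl).trans (hTu l))
  have hHB := comb_HB hT0 hf hu hfT huT
  -- the character annihilates the combined data
  have hχc : ∀ o : ι ⊕ Λ, χ (mkF (n := fun _ : I => m)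
      (f := fun i => comb T c f u i o)
      (fun i => (hHB i o).1) (fun i => (hHB i o).2)) = 0 := by
    rintro (j | l)
    · have e : mkF (n := fun _ : I => m)
          (f := fun i => comb T c f u i (Sum.inl j))
          (fun i => (hHB i (Sum.inl j)).1) (fun i => (hHB i (Sum.inl j)).2) =
          algebraMap ℂ (Fm fun _ : I => m) ((T : ℂ)⁻¹) * mkF (hf j) (hfR j) := by
        refine Fm_ext fun s => ?_
        rw [map_mul, AlgHom.commutes]
        change f j s.1 s.2 / T = (T : ℂ)⁻¹ * f j s.1 s.2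
        rw [div_eq_inv_mul]
      rw [e, map_mul, hχ j, mul_zero]
    · have e : mkF (n := fun _ : I => m)
          (f := fun i => comb T c f u i (Sum.inr l))
          (fun i => (hHB i (Sum.inr l)).1) (fun i => (hHB i (Sum.inr l)).2) =
          algebraMap ℂ (Fm fun _ : I => m) ((T : ℂ)⁻¹) * (mkF (hu l) (huR l) -
            algebraMap ℂ (Fm fun _ : I => m) (c l)) := by
        refine Fm_ext fun s => ?_
        rw [map_mul, map_sub, AlgHom.commutes, AlgHom.commutes]
        change (u l s.1 s.2 - c l) / T = (T : ℂ)⁻¹ * (u l s.1 s.2 - c l)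
        rw [div_eq_inv_mul]
      rw [e, map_mul, map_sub, hcl l, char_alg, char_alg, sub_self, mul_zero]
  obtain ⟨p, hp1, hp2⟩ := exists_pt χ
  have hnear : ∀ ρ : ℝ, 0 < ρ → {s : Σ _ : I, ball (0 : V m) 1 | ‖(s.2 : V m) - p‖ < ρ} ∈ Fl χ := by
    intro ρ hρ
    have h1 := Metric.tendsto_nhds.1 hp2 ρ hρ
    filter_upwards [h1] with s hs
    rw [dist_eq_norm] at hs
    exact hs
  rcases lt_or_eq_of_le hp1 with hlt | heq
  · -- interior point
    have hpb : p ∈ ball (0 : V m) 1 := mem_ball_zero_iff.2 hlt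
    have hp0 : 0 < 1 - ‖p‖ := by linarith
    let y : ι ⊕ Λ → Fm fun _ : I => m := fun o =>
      mkF (f := fun i _ => comb T c f u i o p) (fun i => differentiableOn_const _) (C := 1)
        (fun i _ _ => (hHB i o).2 p hpb)
    have hyR : ∀ o, y o ∈ RF (fun _ : I => m) := fun o =>
      ⟨fun i _ => comb T c f u i o p, fun _ _ => 0, 1, fun _ => differentiableOn_const _,
        fun i _ _ => (hHB i o).2 p hpb, fun _ => by
          refine ⟨⟨differentiableOn_const _, fun z _ z' _ => ?_⟩, fun z _ => by simp⟩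
          simp, fun s => rfl⟩
    have hyt : ∀ o, Tendsto (fun s => ev s (y o)) (Fl χ) (𝓝 (χ (y o))) := fun o =>
      Fl_tendsto χ (Subalgebra.le_topologicalClosure _ (Algebra.subset_adjoin (hyR o)))
    have key : ∀ o : ι ⊕ Λ, χ (y o) = 0 := by
      intro o
      by_contra h0
      obtain ⟨η, hη⟩ : ∃ η : ℝ, η = ‖χ (y o)‖ := ⟨_, rfl⟩
      have hη0 : 0 < η := by rw [hη]; exact norm_pos_iff.2 h0
      obtain ⟨ρ, hρ⟩ : ∃ ρ : ℝ, ρ = min (1 - ‖p‖) (η / 8 * (1 - ‖p‖)) := ⟨_, rfl⟩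
      have hρ0 : 0 < ρ := by rw [hρ]; positivity
      have hS := Filter.inter_mem (hnear ρ hρ0)
        ((Metric.tendsto_nhds.1 (hyt o)) (η / 4) (by positivity))
      refine locality χ (ι := Unit) (fun _ i => comb T c f u i o) (fun _ i => (hHB i o).1)
        (fun _ i => (hHB i o).2) (fun _ => hχc o) hS (Q := 2 / η) fun i => ?_
      have hlow : ∀ z : V m, (∃ hz : z ∈ ball (0 : V m) 1,
          (⟨i, z, hz⟩ : Σ _ : I, ball (0 : V m) 1) ∈
          {s : Σ _ : I, ball (0 : V m) 1 | ‖(s.2 : V m) - p‖ < ρ} ∩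
          {s | dist (ev s (y o)) (χ (y o)) < η / 4}) →
          η / 2 ≤ ‖comb T c f u i o z‖ := by
        rintro z ⟨hz, hz2, hz3⟩
        have h2 : ‖z - p‖ < ρ := hz2
        have h3 : dist (comb T c f u i o p) (χ (y o)) < η / 4 := hz3
        rw [dist_eq_norm] at h3
        have h4 := equi hlt (hHB i o) (z := z) (h2.trans_le (by rw [hρ]; exact min_le_left _ _))
        have h5 : 2 * ‖z - p‖ / (1 - ‖p‖) ≤ η / 4 := by
          rw [div_le_iff₀ hp0]
          have h6 : ρ ≤ η / 8 * (1 - ‖p‖) := by rw [hρ]; exact min_le_right _ _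
          linarith
        have h6 : χ (y o) = comb T c f u i o z - (comb T c f u i o z - comb T c f u i o p) -
            (comb T c f u i o p - χ (y o)) := by ring
        have h7 := norm_sub_le (comb T c f u i o z - (comb T c f u i o z - comb T c f u i o p))
          (comb T c f u i o p - χ (y o))
        have h8 := norm_sub_le (comb T c f u i o z) (comb T c f u i o z - comb T c f u i o p)
        rw [← h6, ← hη] at h7
        linarith
      refine ⟨fun _ z => (comb T c f u i o z)⁻¹,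
        fun _ => ?_, fun _ z hz => ?_, fun z hz => ?_⟩
      · refine DifferentiableOn.inv ((hHB i o).1.mono fun z hz => ?_) fun z hz h1 => ?_
        · obtain ⟨hz, -⟩ := hz
          exact hz
        · have h2 := hlow z hz
          rw [h1, norm_zero] at h2
          linarith
      · have h2 := hlow z hz
        rw [norm_inv, show 2 / η = (η / 2)⁻¹ by rw [inv_div]]
        exact inv_anti₀ (by positivity) h2
      · have h2 := hlow z hz
        simp only [Finset.univ_unique, Finset.sum_singleton]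
        refine mul_inv_cancel₀ fun h1 => ?_
        rw [h1, norm_zero] at h2
        linarith
    -- an index where the values at `p` are small
    have h1 : ∀ o, ∀ᶠ s in Fl χ, ‖comb T c f u s.1 o p‖ <
        min (ε / T) (1 / max Q 1 / T / (Fintype.card ι + 1)) := by
      intro o
      have h2 := hyt o
      rw [key o, tendsto_zero_iff_norm_tendsto_zero] at h2
      exact h2.eventually_lt_const (by positivity)
    obtain ⟨s, hs⟩ := (Filter.eventually_all.2 h1).exists
    have hu0 : ∀ l, ‖u l s.1 p - c l‖ < ε := by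
      intro l
      have h2 := (hs (Sum.inr l)).trans_le (min_le_left _ _)
      change ‖(u l s.1 p - c l) / T‖ < ε / T at h2
      rw [norm_div, hTn] at h2
      exact (div_lt_div_iff_of_pos_right hT0).1 h2
    have h2 := low_of_sol (hsol s.1) (z := p) ⟨hpb, hu0⟩
    have h3 : ∑ j, ‖f j s.1 p‖ ≤ ∑ _j : ι, 1 / max Q 1 / (Fintype.card ι + 1) := by
      refine Finset.sum_le_sum fun j _ => ?_
      have h4 := (hs (Sum.inl j)).trans_le (min_le_right _ _)
      change ‖f j s.1 p / T‖ < _ at h4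
      rw [norm_div, hTn, show 1 / max Q 1 / T / ((Fintype.card ι : ℝ) + 1) =
        1 / max Q 1 / (Fintype.card ι + 1) / T by ring] at h4
      exact ((div_lt_div_iff_of_pos_right hT0).1 h4).le
    rw [Finset.sum_const, Finset.card_univ, nsmul_eq_mul] at h3
    have h4 : (Fintype.card ι : ℝ) * (1 / max Q 1 / (Fintype.card ι + 1)) < 1 / max Q 1 := by
      have h5 : (0 : ℝ) < 1 / max Q 1 := by positivity
      rw [← mul_div_assoc, div_lt_iff₀ (by positivity)]
      nlinarith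
    linarith
  · -- boundary point
    choose k hk using fun l => htame l p heq
    obtain ⟨K, hK⟩ : ∃ K : ℕ, ∀ l, k l ≤ K := ⟨∑ l, k l, fun l =>
      Finset.single_le_sum (f := k) (fun _ _ => Nat.zero_le _) (Finset.mem_univ l)⟩
    obtain ⟨C, ρ, hρ, hg⟩ := lock K (I := I) heq hT0 (c := c) (f := f)
      (u := u) hf hu hfT huT hε one_pos (fun l => (hk l).mono (hK l) heq)
      (Q := Q) (fun i => (hsol i).mono (fun z hz => ⟨hz.1, hz.2.2⟩) le_rfl)
    refine locality χ (ι := ι ⊕ Λ) (fun o i => comb T c f u i o) (fun o i => (hHB i o).1)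
      (fun o i => (hHB i o).2) (fun o => hχc o) (hnear ρ hρ) (Q := C) fun i => ?_
    obtain ⟨g, g1, g2, g3⟩ := hg i
    have hsub : {z : V m | ∃ hz : z ∈ ball (0 : V m) 1,
        (⟨i, z, hz⟩ : Σ _ : I, ball (0 : V m) 1) ∈
        {s : Σ _ : I, ball (0 : V m) 1 | ‖(s.2 : V m) - p‖ < ρ}} ⊆
        ball (0 : V m) 1 ∩ ball p ρ := by
      rintro z ⟨hz, hz2⟩
      exact ⟨hz, by rw [mem_ball, dist_eq_norm]; exact hz2⟩
    exact ⟨g, fun j => (g1 j).mono hsub, fun j z hz => g2 j z (hsub hz),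
      fun z hz => g3 z (hsub hz)⟩

end Pool.Agent.Helper47.Cor
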