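import Mathlib
import Pool.Agent.Helper47.Cor.Tame

/-!
Tame functions form a closed algebra; examples.
-/

set_option autoImplicit false

open Metric Set Filter Topology WeakDual
open scoped ENNReal

namespace Pool.Agent.Helper47.Cor

open Pool.Agent.Y263.LF (Bez Bez.mono)
open Pool.Agent.Y263.GF (AF AD frac_AF ddiv)
open Pool.Agent.W732.Cor (mv t_mv t_ball)
open Pool.Agent.TH310.Cor (Aut aut_mv Nr one_sub_mv one_sub_inner Lo Lo_ge HB_Lo SolvL HB whit2)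

variable {m : ℕ}

theorem Simple.pair {ε₁ ε₂ : ℝ} {I : Type} {p : V m} {u v : I → V m → ℂ}
    (hu : Simple ε₁ I p u) (hv : Simple ε₂ I p v) :
    ∃ (ρ : ℝ) (K : ℕ) (P P' : MvPolynomial (Fin K) ℂ) (h : Fin K → I → ℂ → ℂ)
    (ψ : Fin K → I → V m → ℂ), 0 < ρ ∧
    (∀ k i, DifferentiableOn ℂ (h k i) (ball 0 1) ∧ ∀ w ∈ ball (0 : ℂ) 1, ‖h k i w‖ ≤ 1) ∧
    (∀ k i, AD (ψ k i)) ∧
    (∀ i, ∀ z ∈ ball (0 : V m) 1, ‖z - p‖ < ρ →
      ‖u i z - MvPolynomial.eval (fun k => h k i (ψ k i z)) P‖ ≤ ε₁) ∧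
    (∀ i, ∀ z ∈ ball (0 : V m) 1, ‖z - p‖ < ρ →
      ‖v i z - MvPolynomial.eval (fun k => h k i (ψ k i z)) P'‖ ≤ ε₂) := by
  obtain ⟨ρ, K, P, h, ψ, h0, h1, h2, h3⟩ := hu
  obtain ⟨ρ', K', P', h', ψ', h0', h1', h2', h3'⟩ := hv
  refine ⟨min ρ ρ', K + K', MvPolynomial.rename (Fin.castAdd K') P,
    MvPolynomial.rename (Fin.natAdd K) P', Fin.append h h', Fin.append ψ ψ', lt_min h0 h0',
    ?_, ?_, ?_, ?_⟩
  · intro k i
    refine Fin.addCases (fun k => ?_) (fun k => ?_) k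
    · rw [Fin.append_left]; exact h1 k i
    · rw [Fin.append_right]; exact h1' k i
  · intro k i
    refine Fin.addCases (fun k => ?_) (fun k => ?_) k
    · rw [Fin.append_left]; exact h2 k i
    · rw [Fin.append_right]; exact h2' k i
  · intro i z hz hzp
    rw [MvPolynomial.eval_rename]
    have e : ((fun k => Fin.append h h' k i (Fin.append ψ ψ' k i z)) ∘ Fin.castAdd K') =
        fun k => h k i (ψ k i z) := by
      funext k
      simp only [Function.comp, Fin.append_left]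
    rw [e]
    exact h3 i z hz (hzp.trans_le (min_le_left _ _))
  · intro i z hz hzp
    rw [MvPolynomial.eval_rename]
    have e : ((fun k => Fin.append h h' k i (Fin.append ψ ψ' k i z)) ∘ Fin.natAdd K) =
        fun k => h' k i (ψ' k i z) := by
      funext k
      simp only [Function.comp, Fin.append_right]
    rw [e]
    exact h3' i z hz (hzp.trans_le (min_le_right _ _))

/-- a binary operation at level `0` gives one at all levels -/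
theorem Apx.op (op : ℂ → ℂ → ℂ) {ε₁ ε₂ ε₃ R : ℝ}
    (H : ∀ {I : Type} {p : V m} {u v : I → V m → ℂ},
      (∀ i, ∀ z ∈ ball (0 : V m) 1, ‖u i z‖ ≤ R) → (∀ i, ∀ z ∈ ball (0 : V m) 1, ‖v i z‖ ≤ R) →
      Simple ε₁ I p u → Simple ε₂ I p v → Simple ε₃ I p (fun i z => op (u i z) (v i z)))
    (k : ℕ) : ∀ {I : Type} {p : V m} {u v : I → V m → ℂ}, ‖p‖ = 1 →
      (∀ i, ∀ z ∈ ball (0 : V m) 1, ‖u i z‖ ≤ R) → (∀ i, ∀ z ∈ ball (0 : V m) 1, ‖v i z‖ ≤ R) →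
      Apx ε₁ k I p u → Apx ε₂ k I p v → Apx ε₃ k I p (fun i z => op (u i z) (v i z)) := by
  induction k with
  | zero =>
    intro I p u v _ hu hv h1 h2
    exact H hu hv h1 h2
  | succ k ih =>
    intro I p u v hp hu hv h1 h2 q hq hpq
    obtain ⟨κ, hκ, h3⟩ := h1 q hq hpq
    obtain ⟨κ', hκ', h4⟩ := h2 q hq hpq
    refine ⟨min κ κ', lt_min hκ hκ', ?_⟩
    have hA : ∀ x : I × Nr (min κ κ'), Aut (mv p x.2) (mv p (-(x.2 : ℂ))) :=
      fun x => aut_mv t_mv hp x.2.2.1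
    exact ih (I := I × Nr (min κ κ')) hq (fun x z hz => hu x.1 _ ((hA x).m1 hz))
      (fun x z hz => hv x.1 _ ((hA x).m1 hz)) (h3.shrink (min_le_left _ _))
      (h4.shrink (min_le_right _ _))

theorem Apx.add {ε₁ ε₂ R : ℝ} {k : ℕ} {I : Type} {p : V m} {u v : I → V m → ℂ} (hp : ‖p‖ = 1)
    (hu : ∀ i, ∀ z ∈ ball (0 : V m) 1, ‖u i z‖ ≤ R) (hv : ∀ i, ∀ z ∈ ball (0 : V m) 1, ‖v i z‖ ≤ R)
    (h1 : Apx ε₁ k I p u) (h2 : Apx ε₂ k I p v) :
    Apx (ε₁ + ε₂) k I p (fun i z => u i z + v i z) := by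
  refine Apx.op (fun a b => a + b) (ε₁ := ε₁) (ε₂ := ε₂) (R := R) ?_ k hp hu hv h1 h2
  intro I p u v _ _ h1 h2
  obtain ⟨ρ, K, P, P', h, ψ, h0, h1, h2, h3, h4⟩ := h1.pair h2
  refine ⟨ρ, K, P + P', h, ψ, h0, h1, h2, fun i z hz hzp => ?_⟩
  rw [map_add]
  have e1 := h3 i z hz hzp
  have e2 := h4 i z hz hzp
  have e3 := norm_add_le (u i z - MvPolynomial.eval (fun k => h k i (ψ k i z)) P)
    (v i z - MvPolynomial.eval (fun k => h k i (ψ k i z)) P')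
  have e4 : u i z + v i z - (MvPolynomial.eval (fun k => h k i (ψ k i z)) P +
      MvPolynomial.eval (fun k => h k i (ψ k i z)) P') =
      (u i z - MvPolynomial.eval (fun k => h k i (ψ k i z)) P) +
      (v i z - MvPolynomial.eval (fun k => h k i (ψ k i z)) P') := by ring
  rw [e4]
  linarith

theorem Apx.mul {ε R : ℝ} (hε : 0 ≤ ε) (hε1 : ε ≤ 1) (hR : 0 ≤ R) {k : ℕ} {I : Type} {p : V m}
    {u v : I → V m → ℂ} (hp : ‖p‖ = 1)
    (hu : ∀ i, ∀ z ∈ ball (0 : V m) 1, ‖u i z‖ ≤ R) (hv : ∀ i, ∀ z ∈ ball (0 : V m) 1, ‖v i z‖ ≤ R)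
    (h1 : Apx ε k I p u) (h2 : Apx ε k I p v) :
    Apx ((2 * R + 1) * ε) k I p (fun i z => u i z * v i z) := by
  refine Apx.op (fun a b => a * b) (ε₁ := ε) (ε₂ := ε) (R := R) ?_ k hp hu hv h1 h2
  intro I p u v hu hv h1 h2
  obtain ⟨ρ, K, P, P', h, ψ, h0, h1, h2, h3, h4⟩ := h1.pair h2
  refine ⟨ρ, K, P * P', h, ψ, h0, h1, h2, fun i z hz hzp => ?_⟩
  rw [map_mul]
  have e1 := h3 i z hz hzp
  have e2 := h4 i z hz hzp
  obtain ⟨a, ha⟩ : ∃ a, a = MvPolynomial.eval (fun k => h k i (ψ k i z)) P := ⟨_, rfl⟩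
  obtain ⟨b, hb⟩ : ∃ b, b = MvPolynomial.eval (fun k => h k i (ψ k i z)) P' := ⟨_, rfl⟩
  rw [← ha] at e1 ⊢
  rw [← hb] at e2 ⊢
  have e3 : u i z * v i z - a * b = u i z * (v i z - b) + (u i z - a) * b := by ring
  have e4 : ‖b‖ ≤ R + 1 := by
    have e5 := norm_sub_le (v i z) (v i z - b)
    rw [sub_sub_cancel] at e5
    have := hv i z hz
    linarith
  rw [e3]
  refine (norm_add_le _ _).trans ?_
  rw [norm_mul, norm_mul]
  have e5 : ‖u i z‖ * ‖v i z - b‖ ≤ R * ε := mul_le_mul (hu i z hz) e2 (norm_nonneg _) hR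
  have e6 : ‖u i z - a‖ * ‖b‖ ≤ ε * (R + 1) := mul_le_mul e1 e4 (norm_nonneg _) hε
  linarith

theorem Apx.close {ε η : ℝ} (k : ℕ) : ∀ {I : Type} {p : V m} {u v : I → V m → ℂ}, ‖p‖ = 1 →
    (∀ i, ∀ z ∈ ball (0 : V m) 1, ‖u i z - v i z‖ ≤ η) → Apx ε k I p v →
    Apx (ε + η) k I p u := by
  induction k with
  | zero =>
    intro I p u v _ huv h
    obtain ⟨ρ, K, P, h, ψ, h0, h1, h2, h3⟩ := h
    refine ⟨ρ, K, P, h, ψ, h0, h1, h2, fun i z hz hzp => ?_⟩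
    have e1 := h3 i z hz hzp
    have e2 := huv i z hz
    have e3 := norm_add_le (u i z - v i z)
      (v i z - MvPolynomial.eval (fun k => h k i (ψ k i z)) P)
    rw [sub_add_sub_cancel] at e3
    linarith
  | succ k ih =>
    intro I p u v hp huv h q hq hpq
    obtain ⟨κ, hκ, h1⟩ := h q hq hpq
    refine ⟨κ, hκ, ih hq (fun x z hz => huv x.1 _ ((aut_mv t_mv hp x.2.2.1).m1 hz)) h1⟩

theorem Apx.le {ε ε' : ℝ} (hε : ε ≤ ε') {k : ℕ} {I : Type} {p : V m} {u : I → V m → ℂ}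
    (hp : ‖p‖ = 1) (h : Apx ε k I p u) : Apx ε' k I p u := by
  have h1 := Apx.close (η := ε' - ε) k hp (u := u) (v := u) (fun i z _ => by
    rw [sub_self, norm_zero]; linarith) h
  rwa [add_sub_cancel] at h1

/-- tame functions -/
def Tm (u : V m → ℂ) : Prop :=
  DifferentiableOn ℂ u (ball 0 1) ∧ (∃ R : ℝ, ∀ z ∈ ball (0 : V m) 1, ‖u z‖ ≤ R) ∧
    ∀ p : V m, ‖p‖ = 1 → ∀ ε : ℝ, 0 < ε → ∃ k, Apx ε k Unit p (fun _ => u)

theorem Tm.add {u v : V m → ℂ} (hu : Tm u) (hv : Tm v) : Tm (fun z => u z + v z) := by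
  obtain ⟨h1, ⟨R, h2⟩, h3⟩ := hu
  obtain ⟨h1', ⟨R', h2'⟩, h3'⟩ := hv
  refine ⟨h1.add h1', ⟨R + R', fun z hz => (norm_add_le _ _).trans
    (add_le_add (h2 z hz) (h2' z hz))⟩, fun p hp ε hε => ?_⟩
  obtain ⟨k, hk⟩ := h3 p hp (ε / 2) (by positivity)
  obtain ⟨k', hk'⟩ := h3' p hp (ε / 2) (by positivity)
  refine ⟨max k k', ?_⟩
  have h4 := Apx.add (R := max R R') hp (fun _ z hz => (h2 z hz).trans (le_max_left _ _))
    (fun _ z hz => (h2' z hz).trans (le_max_right _ _)) (hk.mono (le_max_left k k') hp)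
    (hk'.mono (le_max_right k k') hp)
  rwa [add_halves] at h4

theorem Tm.mul {u v : V m → ℂ} (hu : Tm u) (hv : Tm v) : Tm (fun z => u z * v z) := by
  obtain ⟨h1, ⟨R, h2⟩, h3⟩ := hu
  obtain ⟨h1', ⟨R', h2'⟩, h3'⟩ := hv
  obtain ⟨S, hS⟩ : ∃ S : ℝ, S = max (max R R') 0 := ⟨_, rfl⟩
  have hS0 : 0 ≤ S := by rw [hS]; exact le_max_right _ _
  have hRS : R ≤ S := by rw [hS]; exact (le_max_left _ _).trans (le_max_left _ _)
  have hRS' : R' ≤ S := by rw [hS]; exact (le_max_right _ _).trans (le_max_left _ _)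
  refine ⟨h1.mul h1', ⟨S * S, fun z hz => ?_⟩, fun p hp ε hε => ?_⟩
  · rw [norm_mul]
    exact mul_le_mul ((h2 z hz).trans hRS) ((h2' z hz).trans hRS') (norm_nonneg _) hS0
  · obtain ⟨η, hη⟩ : ∃ η : ℝ, η = min 1 (ε / (2 * S + 1)) := ⟨_, rfl⟩
    have hη0 : 0 < η := by rw [hη]; positivity
    have hη1 : η ≤ 1 := by rw [hη]; exact min_le_left _ _
    have hη2 : (2 * S + 1) * η ≤ ε := by
      have : η ≤ ε / (2 * S + 1) := by rw [hη]; exact min_le_right _ _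
      rw [le_div_iff₀ (by positivity)] at this
      linarith
    obtain ⟨k, hk⟩ := h3 p hp η hη0
    obtain ⟨k', hk'⟩ := h3' p hp η hη0
    refine ⟨max k k', ?_⟩
    exact Apx.le hη2 hp (Apx.mul (R := S) hη0.le hη1 hS0 hp
      (fun _ z hz => (h2 z hz).trans hRS)
      (fun _ z hz => (h2' z hz).trans hRS') (hk.mono (le_max_left k k') hp)
      (hk'.mono (le_max_right k k') hp))

theorem Tm.lim {u : V m → ℂ} (hd : DifferentiableOn ℂ u (ball 0 1))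
    (h : ∀ η : ℝ, 0 < η → ∃ v : V m → ℂ, Tm v ∧ ∀ z ∈ ball (0 : V m) 1, ‖u z - v z‖ ≤ η) :
    Tm u := by
  refine ⟨hd, ?_, fun p hp ε hε => ?_⟩
  · obtain ⟨v, ⟨-, ⟨R, hR⟩, -⟩, hv⟩ := h 1 one_pos
    refine ⟨R + 1, fun z hz => ?_⟩
    have h1 := norm_add_le (v z) (u z - v z)
    rw [add_sub_cancel] at h1
    have h2 := hR z hz
    have h3 := hv z hz
    linarith
  · obtain ⟨v, ⟨-, -, hv⟩, huv⟩ := h (ε / 2) (by positivity)
    obtain ⟨k, hk⟩ := hv p hp (ε / 2) (by positivity)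
    refine ⟨k, ?_⟩
    have h4 := Apx.close (η := ε / 2) k hp (u := fun _ : Unit => u) (v := fun _ => v)
      (fun _ z hz => huv z hz) hk
    rwa [add_halves] at h4

theorem AD_zero : AD (fun _ : V m => (0 : ℂ)) :=
  ⟨⟨differentiableOn_const _, fun z _ z' _ => by simp⟩, fun z _ => by simp⟩

/-- families of functions `h ∘ ψ` are simple -/
theorem Simple.comp {I : Type} {p : V m} {h : I → ℂ → ℂ} {ψ : I → V m → ℂ} {R : ℝ}
    (h1 : ∀ i, DifferentiableOn ℂ (h i) (ball 0 1)) (h2 : ∀ i, ∀ w ∈ ball (0 : ℂ) 1, ‖h i w‖ ≤ R)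
    (h3 : ∀ i, AD (ψ i)) {ε : ℝ} (hε : 0 ≤ ε) : Simple ε I p (fun i z => h i (ψ i z)) := by
  obtain ⟨S, hS⟩ : ∃ S : ℝ, S = |R| + 1 := ⟨_, rfl⟩
  have hS0 : 0 < S := by rw [hS]; positivity
  have hSn : ‖(S : ℂ)‖ = S := by rw [Complex.norm_real, Real.norm_of_nonneg hS0.le]
  have hSc : (S : ℂ) ≠ 0 := by exact_mod_cast hS0.ne'
  refine ⟨1, 1, MvPolynomial.C (S : ℂ) * MvPolynomial.X 0, fun _ i w => h i w / S, fun _ => ψ,
    one_pos, fun _ i => ⟨ddiv (h1 i) _, fun w hw => ?_⟩, fun _ i => h3 i, fun i z hz _ => ?_⟩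
  · rw [norm_div, hSn, div_le_one hS0]
    have := h2 i w hw
    have := le_abs_self R
    linarith
  · rw [map_mul, MvPolynomial.eval_C, MvPolynomial.eval_X, mul_div_cancel₀ _ hSc, sub_self,
      norm_zero]
    exact hε

theorem Tm.comp {h : ℂ → ℂ} {ψ : V m → ℂ} (h1 : DifferentiableOn ℂ h (ball 0 1))
    (h2 : ∃ R : ℝ, ∀ w ∈ ball (0 : ℂ) 1, ‖h w‖ ≤ R) (h3 : AD ψ) : Tm (fun z => h (ψ z)) := by
  obtain ⟨R, hR⟩ := h2
  refine ⟨h1.comp h3.1.diff fun z hz => mem_ball_zero_iff.2 (h3.2 z hz),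
    ⟨R, fun z hz => hR _ (mem_ball_zero_iff.2 (h3.2 z hz))⟩, fun p _ ε hε => ⟨0, ?_⟩⟩
  exact Simple.comp (I := Unit) (h := fun _ => h) (ψ := fun _ => ψ) (fun _ => h1) (fun _ => hR)
    (fun _ => h3) hε.le

/-- functions with small oscillation on the Whitney cells are tame -/
theorem Tm.cells {u : V m → ℂ} (hd : DifferentiableOn ℂ u (ball 0 1))
    (hb : ∃ R : ℝ, ∀ z ∈ ball (0 : V m) 1, ‖u z‖ ≤ R)
    (h : ∀ p : V m, ‖p‖ = 1 → ∀ q : V m, ‖q‖ = 1 → (inner ℂ p q : ℂ) = 0 → ∀ ε : ℝ, 0 < ε →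
      ∃ κ : ℝ, 0 < κ ∧ ∀ a ∈ ball (0 : ℂ) 1, ‖1 - a‖ < κ → ∀ z ∈ ball (0 : V m) 1,
        ∀ w ∈ ball (0 : V m) 1, ‖z - q‖ < κ → ‖w - q‖ < κ → ‖u (mv p a z) - u (mv p a w)‖ ≤ ε) :
    Tm u := by
  refine ⟨hd, hb, fun p hp ε hε => ⟨1, fun q hq hpq => ?_⟩⟩
  obtain ⟨R, hR⟩ := hb
  obtain ⟨κ, hκ, hu⟩ := h p hp q hq hpq ε hε
  refine ⟨κ, hκ, ?_⟩
  -- a point near `q`
  obtain ⟨s, hs⟩ : ∃ s : ℝ, s = min κ 1 := ⟨_, rfl⟩
  have hs0 : 0 < s := by rw [hs]; exact lt_min hκ one_pos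
  have hsr : s ≤ κ := by rw [hs]; exact min_le_left _ _
  have hs1 : s ≤ 1 := by rw [hs]; exact min_le_right _ _
  obtain ⟨w, hw⟩ : ∃ w : V m, w = ((1 - s / 2 : ℝ) : ℂ) • q := ⟨_, rfl⟩
  have hwB : w ∈ ball (0 : V m) 1 := by
    rw [mem_ball_zero_iff, hw, norm_smul, hq, Complex.norm_real,
      Real.norm_of_nonneg (by linarith)]
    linarith
  have hwq : ‖w - q‖ < κ := by
    have h3 : w - q = (-(s / 2 : ℝ) : ℂ) • q := by
      rw [hw]
      push_cast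
      module
    rw [h3, norm_smul, hq, norm_neg, Complex.norm_real, Real.norm_of_nonneg (by linarith)]
    linarith
  have h1 : Simple 0 (Unit × Nr κ) q (fun (x : Unit × Nr κ) (_ : V m) => u (mv p x.2 w)) :=
    Simple.comp (h := fun (x : Unit × Nr κ) _ => u (mv p x.2 w)) (ψ := fun _ _ => 0) (R := R)
      (fun _ => differentiableOn_const _)
      (fun x _ _ => hR _ ((aut_mv t_mv hp x.2.2.1).m1 hwB)) (fun _ => AD_zero) le_rfl
  obtain ⟨ρ, K, P, h, ψ, h0, h1, h2, h3⟩ := h1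
  refine ⟨min ρ κ, K, P, h, ψ, lt_min h0 hκ, h1, h2, fun x z hz hzq => ?_⟩
  have e1 := h3 x z hz (hzq.trans_le (min_le_left _ _))
  have e2 := hu x.2 x.2.2.1 x.2.2.2 z hz w hwB (hzq.trans_le (min_le_right _ _)) hwq
  have e3 := norm_add_le (u (mv p x.2 z) - u (mv p x.2 w))
    (u (mv p x.2 w) - MvPolynomial.eval (fun k => h k x (ψ k x z)) P)
  rw [sub_add_sub_cancel] at e3
  linarith

/-- functions continuous on the closed ball are tame -/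
theorem Tm.cont {u : V m → ℂ} (hd : DifferentiableOn ℂ u (ball 0 1))
    (hc : ContinuousOn u (closedBall 0 1)) : Tm u := by
  obtain ⟨R, hR⟩ := (isCompact_closedBall (0 : V m) 1).exists_bound_of_continuousOn hc
  refine ⟨hd, ⟨R, fun z hz => hR z (ball_subset_closedBall hz)⟩, fun p hp ε hε => ⟨0, ?_⟩⟩
  have hpc : p ∈ closedBall (0 : V m) 1 := by rw [mem_closedBall_zero_iff, hp]
  obtain ⟨ρ, hρ, h1⟩ := Metric.continuousOn_iff.1 hc p hpc ε hε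
  refine ⟨ρ, 0, MvPolynomial.C (u p), fun k => k.elim0, fun k => k.elim0, hρ, fun k => k.elim0,
    fun k => k.elim0, fun _ z hz hzp => ?_⟩
  rw [MvPolynomial.eval_C, ← dist_eq_norm]
  exact (h1 z (ball_subset_closedBall hz) (by rw [dist_eq_norm]; exact hzp)).le

end Pool.Agent.Helper47.Cor
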