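import Mathlib
import Pool.Agent.Helper47.Cor.Alg

/-!
The final theorems.
-/

set_option autoImplicit false

open Metric Set Filter Topology WeakDual
open scoped ENNReal

namespace Pool.Agent.Helper47.Cor

open Pool.Agent.Y263.LF (Bez Bez.mono)
open Pool.Agent.Y263.GF (AF AD frac_AF ddiv)
open Pool.Agent.W732.Cor (mv t_mv t_ball)
open Pool.Agent.TH310.Cor (Aut aut_mv Nr one_sub_mv one_sub_inner Lo Lo_ge HB_Lo SolvL HB whit2)

variable {m : ℕ}

theorem mkF_congr {I : Type} {n : I → ℕ} {f : (i : I) → V (n i) → ℂ}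
    (hf : ∀ i, DifferentiableOn ℂ (f i) (ball 0 1)) {C C' : ℝ}
    (hC : ∀ i, ∀ z ∈ ball (0 : V (n i)) 1, ‖f i z‖ ≤ C)
    (hC' : ∀ i, ∀ z ∈ ball (0 : V (n i)) 1, ‖f i z‖ ≤ C') : mkF hf hC = mkF hf hC' :=
  Fm_ext fun _ => rfl

theorem bez_unit {Ω : Set (V m)} {f : V m → ℂ} (hf : DifferentiableOn ℂ f Ω) {η : ℝ} (hη : 0 < η)
    (h : ∀ z ∈ Ω, η ≤ ‖f z‖) : Bez Ω (fun _ : Unit => f) (1 / η) := by
  have hne : ∀ z ∈ Ω, f z ≠ 0 := by
    intro z hz h0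
    have := h z hz
    rw [h0, norm_zero] at this
    linarith
  refine ⟨fun _ z => (f z)⁻¹, fun _ => hf.inv hne, fun _ z hz => ?_, fun z hz => ?_⟩
  · rw [norm_inv, one_div]
    exact inv_anti₀ hη (h z hz)
  · simp only [Finset.univ_unique, Finset.sum_singleton]
    exact mul_inv_cancel₀ (hne z hz)

/-- **The corona problem is local with respect to the tame functions.** -/
theorem thm_local {Λ : Type} (u : Λ → V m → ℂ) (hu : ∀ l, Tm (u l)) (N : ℕ)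
    (F : (Λ → ℂ) → Finset Λ) (ε Q : (Λ → ℂ) → ℝ) (hε : ∀ c, 0 < ε c) :
    ∃ C : ℝ, ∀ f : Fin N → V m → ℂ, (∀ j, HB (f j)) →
      (∀ c, Bez {z : V m | z ∈ ball (0 : V m) 1 ∧ ∀ l ∈ F c, ‖u l z - c l‖ < ε c} f (Q c)) →
      Bez (ball 0 1) f C := by
  classical
  by_contra hcon
  push Not at hcon
  let I : Type := {f : Fin N → V m → ℂ // (∀ j, HB (f j)) ∧
    ∀ c, Bez {z : V m | z ∈ ball (0 : V m) 1 ∧ ∀ l ∈ F c, ‖u l z - c l‖ < ε c} f (Q c)}
  obtain ⟨χ, hχ⟩ := exists_chi (n := fun _ : I => m) (fun j i => i.1 j) (fun j i => (i.2.1 j).1)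
    (R := 1) (fun j i => (i.2.1 j).2) (by
      rintro ⟨C, hC⟩
      obtain ⟨f, h1, h2, h3⟩ := hcon C
      exact h3 (hC ⟨f, h1, h2⟩))
  have hud : ∀ l, DifferentiableOn ℂ (u l) (ball 0 1) := fun l => (hu l).1
  choose R hR using fun l => (hu l).2.1
  have hut := fun l => (hu l).2.2
  obtain ⟨c, hc⟩ : ∃ c : Λ → ℂ, c = fun l => χ (mkF (n := fun _ : I => m) (f := fun _ => u l)
    (fun _ => hud l) (fun _ => hR l)) := ⟨_, rfl⟩
  obtain ⟨S, hS1, hS⟩ : ∃ S : ℝ, 1 ≤ S ∧ ∀ l ∈ F c, R l ≤ S := by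
    refine ⟨1 + ∑ l ∈ F c, |R l|, ?_, fun l hl => ?_⟩
    · have : 0 ≤ ∑ l ∈ F c, |R l| := Finset.sum_nonneg fun _ _ => abs_nonneg _
      linarith
    · have h1 := Finset.single_le_sum (f := fun l => |R l|) (fun _ _ => abs_nonneg _) hl
      have h2 := le_abs_self (R l)
      linarith
  refine tame_locality χ (Λ := F c) (fun j i => i.1 j) (fun l _ => u l) (fun j i => (i.2.1 j).1)
    (fun l _ => hud l) (R := S) (fun j i z hz => ((i.2.1 j).2 z hz).trans hS1)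
    (fun l _ z hz => (hR l z hz).trans (hS l l.2)) (fun j => ?_) (hε c) (Q := Q c)
    (fun l p hp => ?_) (fun i => ?_)
  · rw [← hχ j]
    exact congrArg χ (mkF_congr _ _ _)
  · obtain ⟨k, hk⟩ := hut l p hp (ε c / 8) (by have := hε c; positivity)
    exact ⟨k, Apx.reindex k (fun _ : I => ()) hk⟩
  · refine (i.2.2 c).mono ?_ le_rfl
    rintro z ⟨hz, hl⟩
    refine ⟨hz, fun l hlF => ?_⟩
    have h1 := hl ⟨l, hlF⟩
    have h2 : c l = χ (mkF (n := fun _ : I => m) (f := fun _ => u l) (fun _ => hud l)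
        (fun _ z hz => (hR l z hz).trans (hS l hlF))) := by
      rw [hc]
      exact congrArg χ (mkF_congr _ _ _)
    rw [h2]
    exact h1

/-- **On each polyhedron the data lie in the closed algebra generated by the tame functions and one
arbitrary function.** -/
theorem thm_bad {Λ : Type} (u : Λ → V m → ℂ) (hu : ∀ l, Tm (u l)) {N : ℕ}
    (f : Fin N → V m → ℂ) (hf : ∀ j, HB (f j))
    (h : ∀ c : Λ → ℂ, ∃ (F : Finset Λ) (ε : ℝ), 0 < ε ∧
      ((∃ Q : ℝ, Bez {z : V m | z ∈ ball (0 : V m) 1 ∧ ∀ l ∈ F, ‖u l z - c l‖ < ε} f Q) ∨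
      ∃ (G : V m → ℂ) (S : Finset (Fin N)) (δ : ℝ), 0 < δ ∧
      DifferentiableOn ℂ G (ball 0 1) ∧ (∃ R : ℝ, ∀ z ∈ ball (0 : V m) 1, ‖G z‖ ≤ R) ∧
      (∀ z ∈ ball (0 : V m) 1, (∀ l ∈ F, ‖u l z - c l‖ < ε) → δ ≤ ∑ j ∈ S, ‖f j z‖) ∧
      ∀ j ∈ S, ∀ η : ℝ, 0 < η → ∃ v ∈ Algebra.adjoin ℂ (insert G {v : V m → ℂ | Tm v}),
        ∀ z ∈ ball (0 : V m) 1, (∀ l ∈ F, ‖u l z - c l‖ < ε) → ‖f j z - v z‖ ≤ η)) :
    ∃ C : ℝ, Bez (ball 0 1) f C := by
  classical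
  by_contra hcon
  push Not at hcon
  obtain ⟨χ, hχ⟩ := exists_chi (n := fun _ : Unit => m) (fun j _ => f j) (fun j _ => (hf j).1)
    (R := 1) (fun j _ => (hf j).2) (by
      rintro ⟨C, hC⟩
      exact hcon C (hC ()))
  -- the value of the character at a bounded holomorphic function
  let BH : Set (V m → ℂ) := {g | DifferentiableOn ℂ g (ball 0 1) ∧
    ∃ R : ℝ, ∀ z ∈ ball (0 : V m) 1, ‖g z‖ ≤ R}
  have helt : ∀ g : V m → ℂ, ∃ E : Fm (fun _ : Unit => m), g ∈ BH →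
      ∀ s, ev s E = g s.2 := by
    intro g
    by_cases hg : g ∈ BH
    · obtain ⟨hgd, R, hR⟩ := hg
      exact ⟨mkF (f := fun _ => g) (fun _ => hgd) (fun _ => hR), fun _ s => rfl⟩
    · exact ⟨0, fun h => absurd h hg⟩
  choose E hE using helt
  have hEmk : ∀ {g : V m → ℂ} (hgd : ∀ _ : Unit, DifferentiableOn ℂ g (ball 0 1)) {R : ℝ}
      (hR : ∀ _ : Unit, ∀ z ∈ ball (0 : V m) 1, ‖g z‖ ≤ R),
      mkF (n := fun _ : Unit => m) (f := fun _ => g) hgd hR = E g := by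
    intro g hgd R hR
    refine Fm_ext fun s => ?_
    rw [hE g ⟨hgd (), R, hR ()⟩ s]
    rfl
  have hTmB : ∀ {v : V m → ℂ}, Tm v → v ∈ BH := fun hv => ⟨hv.1, hv.2.1⟩
  -- locality in terms of `E`
  have hloc : ∀ (g : V m → ℂ), g ∈ BH → χ (E g) = 0 → ∀ (W : Finset (V m → ℂ)),
      (∀ w ∈ W, Tm w) → ∀ ε : ℝ, 0 < ε → ∀ η : ℝ, 0 < η →
      ∃ z ∈ ball (0 : V m) 1, (∀ w ∈ W, ‖w z - χ (E w)‖ < ε) ∧ ‖g z‖ < η := by
    intro g hg hg0 W hW ε hε η hη
    by_contra hno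
    push Not at hno
    obtain ⟨hgd, R₀, hR₀⟩ := hg
    choose! R hR using fun w hw => (hW w hw).2.1
    obtain ⟨S, hS0, hS⟩ : ∃ S : ℝ, R₀ ≤ S ∧ ∀ w ∈ W, R w ≤ S := by
      have e1 : 0 ≤ ∑ w ∈ W, |R w| := Finset.sum_nonneg fun _ _ => abs_nonneg _
      refine ⟨|R₀| + ∑ w ∈ W, |R w|, ?_, fun w hw => ?_⟩
      · have := le_abs_self R₀
        linarith
      · have h1 := Finset.single_le_sum (f := fun w => |R w|) (fun _ _ => abs_nonneg _) hw
        have h2 := le_abs_self (R w)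
        have := abs_nonneg R₀
        linarith
    refine tame_locality χ (ι := Unit) (Λ := W) (fun _ _ => g) (fun w _ => (w : V m → ℂ))
      (fun _ _ => hgd) (fun w _ => (hW w w.2).1) (R := S)
      (fun _ _ z hz => (hR₀ z hz).trans hS0)
      (fun w _ z hz => (hR w w.2 z hz).trans (hS w w.2)) (fun _ => ?_) hε (Q := 1 / η)
      (fun w p hp => (hW w w.2).2.2 p hp _ (by positivity)) fun _ => ?_
    · rw [hEmk (g := g)]
      exact hg0
    · refine bez_unit (hgd.mono fun z hz => hz.1) hη fun z hz => ?_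
      refine hno z hz.1 fun w hw => ?_
      have h1 := hz.2 ⟨w, hw⟩
      rw [hEmk (g := w)] at h1
      exact h1
  obtain ⟨c, hc⟩ : ∃ c : Λ → ℂ, c = fun l => χ (E (u l)) := ⟨_, rfl⟩
  have hfB : ∀ j, f j ∈ BH := fun j => ⟨(hf j).1, 1, (hf j).2⟩
  have hfχ : ∀ j, χ (E (f j)) = 0 := by
    intro j
    rw [← hEmk (g := f j) (fun _ => (hf j).1) (fun _ => (hf j).2)]
    exact hχ j
  obtain ⟨F, ε, hε, hsol | ⟨G, S, δ, hδ, hGd, hGb, hlow, hF⟩⟩ := h c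
  · -- solvable on the polyhedron
    obtain ⟨Q, hQ⟩ := hsol
    choose R hR using fun l => (hu l).2.1
    obtain ⟨S, hS1, hS⟩ : ∃ S : ℝ, 1 ≤ S ∧ ∀ l ∈ F, R l ≤ S := by
      refine ⟨1 + ∑ l ∈ F, |R l|, ?_, fun l hl => ?_⟩
      · have : 0 ≤ ∑ l ∈ F, |R l| := Finset.sum_nonneg fun _ _ => abs_nonneg _
        linarith
      · have h1 := Finset.single_le_sum (f := fun l => |R l|) (fun _ _ => abs_nonneg _) hl
        have h2 := le_abs_self (R l)
        linarith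
    refine tame_locality χ (Λ := F) (fun j _ => f j) (fun l _ => u l) (fun j _ => (hf j).1)
      (fun l _ => (hu l).1) (R := S) (fun j _ z hz => ((hf j).2 z hz).trans hS1)
      (fun l _ z hz => (hR l z hz).trans (hS l l.2)) (fun j => ?_) hε (Q := Q)
      (fun l p hp => (hu l).2.2 p hp _ (by positivity)) (fun _ => ?_)
    · rw [hEmk (g := f j)]
      exact hfχ j
    · refine hQ.mono ?_ le_rfl
      rintro z ⟨hz, hl⟩
      refine ⟨hz, fun l hlF => ?_⟩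
      have h1 := hl ⟨l, hlF⟩
      rw [hEmk (g := u l)] at h1
      rw [hc]
      exact h1
  have hGB : G ∈ BH := ⟨hGd, hGb⟩
  -- the filter
  let ℱ : Filter (Σ _ : Unit, ball (0 : V m) 1) :=
    (⨅ w : {w : V m → ℂ // Tm w}, comap (fun s => ev s (E w.1)) (𝓝 (χ (E w.1)))) ⊓
      comap (fun s => ev s (E G)) (𝓝 (χ (E G)))
  have hGt : Tendsto (fun s => ev s (E G)) ℱ (𝓝 (χ (E G))) :=
    tendsto_comap.mono_left inf_le_right
  have hwt : ∀ w : V m → ℂ, Tm w → Tendsto (fun s => ev s (E w)) ℱ (𝓝 (χ (E w))) := by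
    intro w hw
    have h1 : ℱ ≤ comap (fun s => ev s (E w)) (𝓝 (χ (E w))) :=
      inf_le_left.trans (iInf_le (fun w : {w : V m → ℂ // Tm w} =>
        comap (fun s => ev s (E w.1)) (𝓝 (χ (E w.1)))) ⟨w, hw⟩)
    exact tendsto_comap.mono_left h1
  have hsub : ∀ (a b : V m → ℂ), a ∈ BH → b ∈ BH → (fun z => a z + b z) ∈ BH ∧
      (fun z => a z * b z) ∈ BH ∧ (E fun z => a z + b z) = E a + E b ∧
      (E fun z => a z * b z) = E a * E b := by
    intro a b ha hb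
    obtain ⟨had, R, hR⟩ := id ha
    obtain ⟨hbd, R', hR'⟩ := id hb
    have h1 : (fun z => a z + b z) ∈ BH := ⟨had.add hbd, R + R', fun z hz =>
      (norm_add_le _ _).trans (add_le_add (hR z hz) (hR' z hz))⟩
    have h2 : (fun z => a z * b z) ∈ BH := ⟨had.mul hbd, max R 0 * max R' 0, fun z hz => by
      rw [norm_mul]
      exact mul_le_mul ((hR z hz).trans (le_max_left _ _)) ((hR' z hz).trans (le_max_left _ _))
        (norm_nonneg _) (le_max_right _ _)⟩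
    refine ⟨h1, h2, Fm_ext fun s => ?_, Fm_ext fun s => ?_⟩
    · rw [map_add, hE _ h1, hE _ ha, hE _ hb]
    · rw [map_mul, hE _ h2, hE _ ha, hE _ hb]
  have hadj : ∀ a ∈ Algebra.adjoin ℂ (insert G {v : V m → ℂ | Tm v}),
      a ∈ BH ∧ Tendsto (fun s => ev s (E a)) ℱ (𝓝 (χ (E a))) := by
    intro a ha
    induction ha using Algebra.adjoin_induction with
    | mem x hx =>
      rcases hx with rfl | hx
      · exact ⟨hGB, hGt⟩
      · exact ⟨hTmB hx, hwt x hx⟩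
    | algebraMap r =>
      have h1 : Tm (algebraMap ℂ (V m → ℂ) r) := by
        have := Tm.cont (m := m) (u := fun _ => r) (differentiableOn_const _) continuousOn_const
        exact this
      exact ⟨hTmB h1, hwt _ h1⟩
    | add x y _ _ hx hy =>
      obtain ⟨h1, -, h2, -⟩ := hsub x y hx.1 hy.1
      refine ⟨h1, ?_⟩
      have h3 : E (x + y) = E x + E y := h2
      rw [h3, map_add]
      refine (hx.2.add hy.2).congr fun s => ?_
      rw [map_add]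
    | mul x y _ _ hx hy =>
      obtain ⟨-, h1, -, h2⟩ := hsub x y hx.1 hy.1
      refine ⟨h1, ?_⟩
      have h3 : E (x * y) = E x * E y := h2
      rw [h3, map_mul]
      refine (hx.2.mul hy.2).congr fun s => ?_
      rw [map_mul]
  have hne : ℱ.NeBot := by
    rw [neBot_iff]
    intro hbot
    have h0 : (∅ : Set (Σ _ : Unit, ball (0 : V m) 1)) ∈ ℱ := by rw [hbot]; exact mem_bot
    obtain ⟨s1, hs1, s2, hs2, hs12⟩ := Filter.mem_inf_iff.1 h0
    rw [mem_iInf_finite] at hs1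
    obtain ⟨t, ht⟩ := hs1
    obtain ⟨η₁, hη₁, hη₁'⟩ := Pool.Agent.Y263.LF.basic_fin ev
      (fun w : {w : V m → ℂ // Tm w} => E w.1) (fun w => χ (E w.1)) t s1 ht
    obtain ⟨U, hU, hUs⟩ := mem_comap.1 hs2
    obtain ⟨η₂, hη₂, hη₂'⟩ := Metric.mem_nhds_iff.1 hU
    -- the function `G - χ G`
    obtain ⟨hGc, -, hGc2, -⟩ := hsub G (fun _ => -χ (E G)) hGB
      ⟨differentiableOn_const _, ‖χ (E G)‖, fun _ _ => by rw [norm_neg]⟩
    have hEc : E (fun _ : V m => -χ (E G)) = algebraMap ℂ (Fm fun _ : Unit => m) (-χ (E G)) := by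
      refine Fm_ext fun s => ?_
      rw [hE _ ⟨differentiableOn_const _, ‖χ (E G)‖, fun _ _ => by rw [norm_neg]⟩,
        AlgHom.commutes]
      rfl
    have hχG : χ (E fun z => G z + -χ (E G)) = 0 := by
      rw [hGc2, map_add, hEc, char_alg, add_neg_cancel]
    obtain ⟨z, hz, hz1, hz2⟩ := hloc _ hGc hχG (t.image Subtype.val) (fun w hw => by
      obtain ⟨w', -, rfl⟩ := Finset.mem_image.1 hw
      exact w'.2) η₁ hη₁ η₂ hη₂
    have h1 : (⟨(), z, hz⟩ : Σ _ : Unit, ball (0 : V m) 1) ∈ s1 := by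
      refine hη₁' _ fun w hw => ?_
      rw [hE _ (hTmB w.2)]
      exact hz1 w.1 (Finset.mem_image.2 ⟨w, hw, rfl⟩)
    have h2 : (⟨(), z, hz⟩ : Σ _ : Unit, ball (0 : V m) 1) ∈ s2 := by
      refine hUs (hη₂' ?_)
      rw [mem_ball_iff_norm]
      beta_reduce
      rw [hE _ hGB, sub_eq_add_neg]
      exact hz2
    have h3 : (⟨(), z, hz⟩ : Σ _ : Unit, ball (0 : V m) 1) ∈ s1 ∩ s2 := ⟨h1, h2⟩
    rw [← hs12] at h3
    exact h3
  -- the polyhedron belongs to the filter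
  have hP : {s : Σ _ : Unit, ball (0 : V m) 1 | ∀ l ∈ F, ‖u l s.2 - c l‖ < ε} ∈ ℱ := by
    have h1 : ∀ l ∈ F, {s : Σ _ : Unit, ball (0 : V m) 1 | ‖u l s.2 - c l‖ < ε} ∈ ℱ := by
      intro l _
      filter_upwards [Metric.tendsto_nhds.1 (hwt (u l) (hu l)) ε hε] with s hs
      rw [dist_eq_norm, hE _ (hTmB (hu l))] at hs
      rw [hc]
      exact hs
    have h2 := (Filter.biInter_finset_mem F).2 h1
    filter_upwards [h2] with s hs l hl
    exact mem_iInter₂.1 hs l hl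
  obtain ⟨η, hη⟩ : ∃ η : ℝ, η = δ / (8 * (N + 1)) := ⟨_, rfl⟩
  have hη0 : 0 < η := by rw [hη]; positivity
  have hfev : ∀ j ∈ S, ∀ᶠ s in ℱ, ‖f j s.2‖ < 4 * η := by
    intro j hj
    obtain ⟨v, hv, hfv⟩ := hF j hj η hη0
    obtain ⟨hvB, hvt⟩ := hadj v hv
    -- the value of `v`
    have hvχ : ‖χ (E v)‖ ≤ 2 * η := by
      by_contra hcon2
      push Not at hcon2
      have hnB : (fun _ : V m => (-1 : ℂ)) ∈ BH :=
        ⟨differentiableOn_const _, 1, fun _ _ => by rw [norm_neg, norm_one]⟩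
      have hcB : (fun _ : V m => χ (E v)) ∈ BH :=
        ⟨differentiableOn_const _, ‖χ (E v)‖, fun _ _ => le_rfl⟩
      obtain ⟨-, h1, -, h2⟩ := hsub (fun _ => -1) v hnB hvB
      obtain ⟨h3, -, h4, -⟩ := hsub (f j) (fun z => -1 * v z) (hfB j) h1
      obtain ⟨h5, -, h6, -⟩ := hsub (fun z => f j z + -1 * v z) (fun _ => χ (E v)) h3 hcB
      have e1 : E (fun _ : V m => (-1 : ℂ)) = algebraMap ℂ (Fm fun _ : Unit => m) (-1) := by
        refine Fm_ext fun s => ?_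
        rw [hE _ hnB, AlgHom.commutes]
        rfl
      have e2 : E (fun _ : V m => χ (E v)) = algebraMap ℂ (Fm fun _ : Unit => m) (χ (E v)) := by
        refine Fm_ext fun s => ?_
        rw [hE _ hcB, AlgHom.commutes]
        rfl
      have e3 : χ (E fun z => f j z + -1 * v z + χ (E v)) = 0 := by
        rw [h6, map_add, h4, map_add, h2, map_mul, e1, char_alg, e2, char_alg, hfχ j]
        ring
      obtain ⟨z, hz, hz1, hz2⟩ := hloc _ h5 e3 (F.image u) (fun w hw => by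
        obtain ⟨l, -, rfl⟩ := Finset.mem_image.1 hw
        exact hu l) ε hε η hη0
      have h7 := hfv z hz fun l hl => by
        rw [hc]
        exact hz1 (u l) (Finset.mem_image_of_mem u hl)
      have h8 : χ (E v) = (f j z + -1 * v z + χ (E v)) - (f j z - v z) := by ring
      rw [h8] at hcon2
      have h9 := norm_sub_le (f j z + -1 * v z + χ (E v)) (f j z - v z)
      linarith
    filter_upwards [Metric.tendsto_nhds.1 hvt η hη0, hP] with s hs hsP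
    rw [dist_eq_norm, hE _ hvB] at hs
    have h1 := hfv s.2 s.2.2 hsP
    have h2 := norm_add₃_le (a := f j s.2 - v s.2) (b := v s.2 - χ (E v)) (c := χ (E v))
    have h3 : f j s.2 - v s.2 + (v s.2 - χ (E v)) + χ (E v) = f j s.2 := by ring
    rw [h3] at h2
    linarith
  obtain ⟨s, hs, hsP⟩ := (((Filter.eventually_all_finset S).2 hfev).and hP).exists
  have h1 := hlow s.2 s.2.2 hsP
  have h2 : ∑ j ∈ S, ‖f j s.2‖ ≤ ∑ _j ∈ S, 4 * η := Finset.sum_le_sum fun j hj => (hs j hj).le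
  rw [Finset.sum_const, nsmul_eq_mul] at h2
  have h5 : ((S.card : ℕ) : ℝ) ≤ N := by
    have h3 := Finset.card_le_univ S
    rw [Fintype.card_fin] at h3
    exact_mod_cast h3
  have h4 : ((S.card : ℕ) : ℝ) * (4 * η) ≤ N * (4 * η) := by gcongr
  have h6 : (N : ℝ) * (4 * η) ≤ δ / 2 := by
    rw [hη]
    have h7 : (N : ℝ) * (4 * (δ / (8 * (N + 1)))) = (N / (N + 1)) * (δ / 2) := by
      field_simp
      ring
    rw [h7]
    have h8 : (N : ℝ) / (N + 1) ≤ 1 := by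
      rw [div_le_one (by positivity)]; linarith
    have h9 : 0 ≤ δ / 2 := by positivity
    calc (N : ℝ) / (N + 1) * (δ / 2) ≤ 1 * (δ / 2) := by gcongr
      _ = _ := one_mul _
  linarith

/-- **Dimension-free locality.** -/
theorem thm_free (N K : ℕ) {ε Q : ℝ} (hε : 0 < ε) :
    ∃ C : ℝ, ∀ (n : ℕ) (ψ : Fin K → V n → ℂ) (h : Fin K → ℂ → ℂ) (f : Fin N → V n → ℂ),
      (∀ k, AD (ψ k)) → (∀ k, DifferentiableOn ℂ (h k) (ball 0 1)) →
      (∀ k, ∀ w ∈ ball (0 : ℂ) 1, ‖h k w‖ ≤ 1) → (∀ j, HB (f j)) →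
      (∀ z₀ ∈ ball (0 : V n) 1, Bez {z : V n | z ∈ ball (0 : V n) 1 ∧
        ∀ k, ‖h k (ψ k z) - h k (ψ k z₀)‖ < ε} f Q) → Bez (ball 0 1) f C := by
  classical
  by_contra hcon
  push Not at hcon
  let I : Type := {D : Σ n : ℕ, (Fin K → V n → ℂ) × (Fin K → ℂ → ℂ) × (Fin N → V n → ℂ) //
    (∀ k, AD (D.2.1 k)) ∧ (∀ k, DifferentiableOn ℂ (D.2.2.1 k) (ball 0 1)) ∧
      (∀ k, ∀ w ∈ ball (0 : ℂ) 1, ‖D.2.2.1 k w‖ ≤ 1) ∧ (∀ j, HB (D.2.2.2 j)) ∧
      ∀ z₀ ∈ ball (0 : V D.1) 1, Bez {z : V D.1 | z ∈ ball (0 : V D.1) 1 ∧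
        ∀ k, ‖D.2.2.1 k (D.2.1 k z) - D.2.2.1 k (D.2.1 k z₀)‖ < ε} D.2.2.2 Q}
  let n : I → ℕ := fun i => i.1.1
  obtain ⟨χ, hχ⟩ := exists_chi (n := n) (fun j i => i.1.2.2.2 j) (fun j i => (i.2.2.2.2.1 j).1)
    (R := 1) (fun j i => (i.2.2.2.2.1 j).2) (by
      rintro ⟨C, hC⟩
      obtain ⟨n, ψ, h, f, h1, h2, h3, h4, h5, h6⟩ := hcon C
      exact h6 (hC ⟨⟨n, ψ, h, f⟩, h1, h2, h3, h4, h5⟩))
  have hd : ∀ (k : Fin K) (i : I), DifferentiableOn ℂ (fun z => i.1.2.2.1 k (i.1.2.1 k z))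
      (ball (0 : V (n i)) 1) := fun k i =>
    (i.2.2.1 k).comp (i.2.1 k).1.diff fun z hz => mem_ball_zero_iff.2 ((i.2.1 k).2 z hz)
  have hb : ∀ (k : Fin K) (i : I), ∀ z ∈ ball (0 : V (n i)) 1,
      ‖i.1.2.2.1 k (i.1.2.1 k z)‖ ≤ 1 := fun k i z hz =>
    i.2.2.2.1 k _ (mem_ball_zero_iff.2 ((i.2.1 k).2 z hz))
  let x : Fin K → Fm n := fun k => mkF (hd k) (hb k)
  have hx : ∀ k, x k ∈ RF n := fun k =>
    ⟨fun i => i.1.2.2.1 k, fun i => i.1.2.1 k, 1, fun i => i.2.2.1 k, fun i => i.2.2.2.1 k,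
      fun i => i.2.1 k, fun s => rfl⟩
  have hS : (⋂ k, {s | ‖ev s (x k) - χ (x k)‖ < ε / 2}) ∈ Fl χ := by
    refine Filter.iInter_mem.2 fun k => ?_
    have h1 := Fl_tendsto χ (Subalgebra.le_topologicalClosure _ (Algebra.subset_adjoin (hx k)))
    filter_upwards [Metric.tendsto_nhds.1 h1 (ε / 2) (by positivity)] with s hs
    rw [dist_eq_norm] at hs
    exact hs
  refine locality χ (fun j i => i.1.2.2.2 j) (fun j i => (i.2.2.2.2.1 j).1)
    (fun j i => (i.2.2.2.2.1 j).2) hχ hS (Q := Q) fun i => ?_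
  by_cases hne : ∃ z₀ : V (n i), ∃ hz : z₀ ∈ ball (0 : V (n i)) 1,
      (⟨i, z₀, hz⟩ : Σ i, ball (0 : V (n i)) 1) ∈ ⋂ k, {s | ‖ev s (x k) - χ (x k)‖ < ε / 2}
  · obtain ⟨z₀, hz₀, hz₀2⟩ := hne
    refine (i.2.2.2.2.2 z₀ hz₀).mono ?_ le_rfl
    rintro z ⟨hz, hz2⟩
    refine ⟨hz, fun k => ?_⟩
    have h1 : ‖i.1.2.2.1 k (i.1.2.1 k z) - χ (x k)‖ < ε / 2 := mem_iInter.1 hz2 k
    have h2 : ‖i.1.2.2.1 k (i.1.2.1 k z₀) - χ (x k)‖ < ε / 2 := mem_iInter.1 hz₀2 k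
    have h3 := norm_sub_le (i.1.2.2.1 k (i.1.2.1 k z) - χ (x k))
      (i.1.2.2.1 k (i.1.2.1 k z₀) - χ (x k))
    rw [sub_sub_sub_cancel_right] at h3
    linarith
  · refine ⟨fun _ _ => 0, fun _ => differentiableOn_const _, fun j z hz => ?_, fun z hz => ?_⟩
    · exact absurd ⟨z, hz⟩ hne
    · exact absurd ⟨z, hz⟩ hne

end Pool.Agent.Helper47.Cor
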