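import Mathlib
import Pool.Agent.Helper47.Cor.Alg

/-!
Compositions `h ∘ ψ` with `ψ` of class `C²` up to the boundary and with nondegenerate contact are
tame.
-/

set_option autoImplicit false

open Metric Set Filter Topology WeakDual
open scoped ENNReal NNReal

namespace Pool.Agent.Helper47.Cor

open Pool.Agent.Y263.LF (Bez Bez.mono)
open Pool.Agent.Y263.GF (AF AD frac_AF ddiv)
open Pool.Agent.W732.Cor (mv t_mv t_ball)
open Pool.Agent.TH310.Cor (Aut aut_mv Nr one_sub_mv one_sub_inner Lo Lo_ge HB_Lo SolvL HB whit2)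

variable {m : ℕ}

/-- the derivative is complex linear at boundary points -/
theorem clin {p : V m} (hp : ‖p‖ = 1) {ψ : V m → ℂ} (hψ : DifferentiableOn ℂ ψ (ball 0 1))
    (hC : ContDiffAt ℝ 2 ψ p) (v : V m) :
    fderiv ℝ ψ p (Complex.I • v) = Complex.I * fderiv ℝ ψ p v := by
  have hc : ContinuousAt (fderiv ℝ ψ) p := by
    have h1 : ContDiffAt ℝ 1 (fderiv ℝ ψ) p := hC.fderiv_right (by norm_num)
    exact h1.continuousAt
  have hcl : p ∈ closure (ball (0 : V m) 1) := by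
    rw [closure_ball _ one_ne_zero, mem_closedBall_zero_iff, hp]
  have hne : (𝓝[ball (0 : V m) 1] p).NeBot := mem_closure_iff_nhdsWithin_neBot.1 hcl
  have h2 : Tendsto (fun z => fderiv ℝ ψ z (Complex.I • v)) (𝓝[ball (0 : V m) 1] p)
      (𝓝 (fderiv ℝ ψ p (Complex.I • v))) :=
    ((ContinuousLinearMap.apply ℝ ℂ (Complex.I • v)).continuous.tendsto (fderiv ℝ ψ p)).comp
      (hc.tendsto.mono_left nhdsWithin_le_nhds)
  have h3 : Tendsto (fun z => Complex.I * fderiv ℝ ψ z v) (𝓝[ball (0 : V m) 1] p)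
      (𝓝 (Complex.I * fderiv ℝ ψ p v)) :=
    (((ContinuousLinearMap.apply ℝ ℂ v).continuous.tendsto (fderiv ℝ ψ p)).comp
      (hc.tendsto.mono_left nhdsWithin_le_nhds)).const_mul _
  refine tendsto_nhds_unique h2 (h3.congr' ?_)
  filter_upwards [self_mem_nhdsWithin] with z hz
  have h4 : DifferentiableAt ℂ ψ z := (hψ z hz).differentiableAt (isOpen_ball.mem_nhds hz)
  have h5 : fderiv ℝ ψ z = (fderiv ℂ ψ z).restrictScalars ℝ := by
    exact (h4.hasFDerivAt.restrictScalars ℝ).fderiv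
  rw [h5]
  simp only [ContinuousLinearMap.coe_restrictScalars']
  rw [map_smul, smul_eq_mul]

theorem quad {E : Type} [NormedAddCommGroup E] [NormedSpace ℝ E] {ψ : E → ℂ} {p : E}
    (hC : ContDiffAt ℝ 2 ψ p) : ∃ M r : ℝ, 0 ≤ M ∧ 0 < r ∧ ∀ z ∈ ball p r, ∀ w ∈ ball p r,
      ‖ψ z - ψ w - fderiv ℝ ψ p (z - w)‖ ≤ M * (‖z - p‖ + ‖w - p‖) * ‖z - w‖ := by
  have h1 : ContDiffAt ℝ 1 (fderiv ℝ ψ) p := hC.fderiv_right (by norm_num)
  obtain ⟨K, t, ht, hK⟩ := h1.exists_lipschitzOnWith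
  have h2 : ∀ᶠ z in 𝓝 p, DifferentiableAt ℝ ψ z := by
    have h3 := hC.eventually (by simp)
    filter_upwards [h3] with z hz
    exact hz.differentiableAt (by norm_num)
  obtain ⟨r, hr, hr2⟩ := Metric.mem_nhds_iff.1 (Filter.inter_mem ht h2)
  refine ⟨K, r, K.2, hr, fun z hz w hw => ?_⟩
  obtain ⟨ρ, hρ⟩ : ∃ ρ : ℝ, ρ = max ‖z - p‖ ‖w - p‖ := ⟨_, rfl⟩
  have hρr : ρ < r := by
    rw [hρ]
    rw [mem_ball_iff_norm] at hz hw
    exact max_lt hz hw
  have hzc : z ∈ closedBall p ρ := by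
    rw [mem_closedBall_iff_norm, hρ]; exact le_max_left _ _
  have hwc : w ∈ closedBall p ρ := by
    rw [mem_closedBall_iff_norm, hρ]; exact le_max_right _ _
  have hsub : closedBall p ρ ⊆ ball p r := closedBall_subset_ball hρr
  have hpb : p ∈ ball p r := mem_ball_self hr
  have h3 := (convex_closedBall p ρ).norm_image_sub_le_of_norm_hasFDerivWithin_le'
    (f := ψ) (f' := fderiv ℝ ψ) (φ := fderiv ℝ ψ p) (C := K * ρ) (x := w) (y := z)
    (fun x hx => ((hr2 (hsub hx)).2.hasFDerivAt).hasFDerivWithinAt)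
    (fun x hx => by
      have h4 := hK.dist_le_mul x (hr2 (hsub hx)).1 p (hr2 hpb).1
      rw [dist_eq_norm, dist_eq_norm] at h4
      rw [mem_closedBall_iff_norm] at hx
      refine h4.trans ?_
      gcongr) hwc hzc
  refine h3.trans ?_
  have h5 : ρ ≤ ‖z - p‖ + ‖w - p‖ := by
    rw [hρ]
    exact max_le (by linarith [norm_nonneg (w - p)]) (by linarith [norm_nonneg (z - p)])
  gcongr

/-- the derivative vanishes in the complex tangential directions -/
theorem tang {p : V m} (hp : ‖p‖ = 1) {ψ : V m → ℂ} (hψ : DifferentiableOn ℂ ψ (ball 0 1))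
    (hb : ∀ z ∈ ball (0 : V m) 1, ‖ψ z‖ ≤ 1) (hp1 : ‖ψ p‖ = 1)
    (hC : ContDiffAt ℝ 2 ψ p) {v : V m} (hv : (inner ℂ p v : ℂ) = 0) : fderiv ℝ ψ p v = 0 := by
  obtain ⟨M, r, hM, hr, hq⟩ := quad hC
  obtain ⟨α, hα⟩ : ∃ α : ℂ, α = ψ p := ⟨_, rfl⟩
  -- the real part of `conj α * D v` is not positive
  have key : ∀ w : V m, (inner ℂ p w : ℂ) = 0 →
      (starRingEnd ℂ α * fderiv ℝ ψ p w).re ≤ 0 := by
    intro w hw
    by_contra hcon
    push Not at hcon
    obtain ⟨τ, hτ⟩ : ∃ τ : ℝ, τ = (starRingEnd ℂ α * fderiv ℝ ψ p w).re := ⟨_, rfl⟩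
    rw [← hτ] at hcon
    obtain ⟨S, hS⟩ : ∃ S : ℝ, S = ‖w‖ ^ 2 + 1 := ⟨_, rfl⟩
    have hS1 : 1 ≤ S := by rw [hS]; nlinarith [sq_nonneg ‖w‖]
    -- the point
    let x : ℝ → V m := fun ε => ((1 - S * ε ^ 2 : ℝ) : ℂ) • p + (ε : ℂ) • w
    have hx : ∀ ε : ℝ, 0 < ε → S * ε ^ 2 < 1 → x ε ∈ ball (0 : V m) 1 := by
      intro ε hε hε1
      rw [mem_ball_zero_iff]
      have h1 : ‖x ε‖ ^ 2 = (1 - S * ε ^ 2) ^ 2 + ε ^ 2 * ‖w‖ ^ 2 := by
        have h2 := norm_add_sq_eq_norm_sq_add_norm_sq_of_inner_eq_zero (𝕜 := ℂ)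
          (((1 - S * ε ^ 2 : ℝ) : ℂ) • p) ((ε : ℂ) • w)
          (by rw [inner_smul_left, inner_smul_right, hw, mul_zero, mul_zero])
        simp only [x]
        rw [pow_two, h2, norm_smul, norm_smul, hp, Complex.norm_real, Complex.norm_real,
          Real.norm_of_nonneg (by linarith), Real.norm_of_nonneg hε.le]
        ring
      have h2 : ‖x ε‖ ^ 2 < 1 := by
        rw [h1]
        have h3 : ‖w‖ ^ 2 = S - 1 := by rw [hS]; ring
        rw [h3]
        have h4 : 0 < S * ε ^ 2 := by positivity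
        nlinarith [sq_pos_of_pos hε]
      nlinarith [norm_nonneg (x ε)]
    have hxp : ∀ ε : ℝ, 0 < ε → ε ≤ 1 → ‖x ε - p‖ ≤ (S + ‖w‖) * ε := by
      intro ε hε hε1
      have h1 : x ε - p = (-(S * ε ^ 2 : ℝ) : ℂ) • p + (ε : ℂ) • w := by
        simp only [x]
        push_cast
        module
      rw [h1]
      refine (norm_add_le _ _).trans ?_
      rw [norm_smul, norm_smul, hp, norm_neg, Complex.norm_real, Complex.norm_real,
        Real.norm_of_nonneg (by positivity), Real.norm_of_nonneg hε.le]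
      have : S * ε ^ 2 ≤ S * ε := by
        have : ε ^ 2 ≤ ε := by nlinarith
        gcongr
      linarith
    obtain ⟨C₁, hC₁⟩ : ∃ C₁ : ℝ, C₁ = M * (S + ‖w‖) ^ 2 + ‖fderiv ℝ ψ p‖ * S := ⟨_, rfl⟩
    have hC₁0 : 0 ≤ C₁ := by rw [hC₁]; positivity
    have hkey : ∀ ε : ℝ, 0 < ε → ε ≤ 1 → S * ε ^ 2 < 1 → (S + ‖w‖) * ε < r →
        τ * ε ≤ C₁ * ε ^ 2 := by
      intro ε hε hε1 hε2 hε3
      have h1 := hxp ε hε hε1
      have h2 := hq (x ε) (by rw [mem_ball_iff_norm]; linarith) p (mem_ball_self hr)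
      rw [sub_self, norm_zero, add_zero] at h2
      have h3 : x ε - p = ((-(S * ε ^ 2) : ℝ)) • p + (ε : ℝ) • w := by
        simp only [x]
        rw [← Complex.coe_smul, ← Complex.coe_smul]
        push_cast
        module
      have h4 : fderiv ℝ ψ p (x ε - p) = (-(S * ε ^ 2) : ℝ) • fderiv ℝ ψ p p +
          (ε : ℝ) • fderiv ℝ ψ p w := by
        rw [h3, map_add, map_smul, map_smul]
      have h5 : ‖ψ (x ε) - ψ p - (ε : ℝ) • fderiv ℝ ψ p w‖ ≤ C₁ * ε ^ 2 := by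
        have e1 : ψ (x ε) - ψ p - (ε : ℝ) • fderiv ℝ ψ p w =
            (ψ (x ε) - ψ p - fderiv ℝ ψ p (x ε - p)) + (-(S * ε ^ 2) : ℝ) • fderiv ℝ ψ p p := by
          rw [h4]
          ring
        rw [e1]
        refine (norm_add_le _ _).trans ?_
        rw [norm_smul, Real.norm_eq_abs, abs_neg, abs_of_nonneg (by positivity)]
        have e2 : ‖fderiv ℝ ψ p p‖ ≤ ‖fderiv ℝ ψ p‖ := by
          have := (fderiv ℝ ψ p).le_opNorm p
          rwa [hp, mul_one] at this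
        have e3 : M * ‖x ε - p‖ * ‖x ε - p‖ ≤ M * ((S + ‖w‖) * ε) * ((S + ‖w‖) * ε) := by
          gcongr
        have e4 : S * ε ^ 2 * ‖fderiv ℝ ψ p p‖ ≤ S * ε ^ 2 * ‖fderiv ℝ ψ p‖ := by gcongr
        rw [hC₁]
        nlinarith
      have h6 := hb (x ε) (hx ε hε hε2)
      -- real part
      have h7 : (starRingEnd ℂ α * ψ (x ε)).re ≤ 1 := by
        refine (Complex.re_le_norm _).trans ?_
        rw [norm_mul, RCLike.norm_conj, hα, hp1, one_mul]
        exact h6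
      have h8 : starRingEnd ℂ α * ψ (x ε) = starRingEnd ℂ α * ψ p +
          (ε : ℂ) * (starRingEnd ℂ α * fderiv ℝ ψ p w) +
          starRingEnd ℂ α * (ψ (x ε) - ψ p - (ε : ℝ) • fderiv ℝ ψ p w) := by
        rw [Complex.real_smul]
        ring
      have h9 : (starRingEnd ℂ α * ψ p).re = 1 := by
        rw [← hα, mul_comm, Complex.mul_conj, Complex.normSq_eq_norm_sq, hα, hp1]
        simp
      have h10 : -(C₁ * ε ^ 2) ≤
          (starRingEnd ℂ α * (ψ (x ε) - ψ p - (ε : ℝ) • fderiv ℝ ψ p w)).re := by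
        obtain ⟨D, hD⟩ : ∃ D : ℂ, D = ψ (x ε) - ψ p - (ε : ℝ) • fderiv ℝ ψ p w := ⟨_, rfl⟩
        rw [← hD] at h5 ⊢
        have e1 := Complex.abs_re_le_norm (starRingEnd ℂ α * D)
        have e0 : ‖α‖ = 1 := by rw [hα, hp1]
        rw [norm_mul, RCLike.norm_conj, e0, one_mul] at e1
        have e2 := neg_abs_le (starRingEnd ℂ α * D).re
        linarith
      have h11 : ((ε : ℂ) * (starRingEnd ℂ α * fderiv ℝ ψ p w)).re = ε * τ := by
        rw [Complex.re_ofReal_mul, hτ]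
      rw [h8, Complex.add_re, Complex.add_re, h9, h11] at h7
      linarith
    -- choose a small `ε`
    obtain ⟨ε, hε⟩ : ∃ ε : ℝ, ε = min (min 1 (1 / (2 * S))) (min (r / (2 * (S + ‖w‖)))
      (τ / (2 * (C₁ + 1)))) := ⟨_, rfl⟩
    have hε0 : 0 < ε := by rw [hε]; positivity
    have e1 : ε ≤ 1 := by rw [hε]; exact (min_le_left _ _).trans (min_le_left _ _)
    have e2 : ε ≤ 1 / (2 * S) := by rw [hε]; exact (min_le_left _ _).trans (min_le_right _ _)
    have e3 : ε ≤ r / (2 * (S + ‖w‖)) := by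
      rw [hε]; exact (min_le_right _ _).trans (min_le_left _ _)
    have e4 : ε ≤ τ / (2 * (C₁ + 1)) := by
      rw [hε]; exact (min_le_right _ _).trans (min_le_right _ _)
    rw [le_div_iff₀ (by positivity)] at e2 e3 e4
    have hSw : 0 < S + ‖w‖ := by positivity
    have h1 := hkey ε hε0 e1 (by nlinarith) (by nlinarith)
    have h2 : C₁ * ε ^ 2 < τ * ε := by
      have : C₁ * ε < τ := by nlinarith
      nlinarith
    linarith
  have hI := clin hp hψ hC v
  have k1 := key v hv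
  have k2 := key (-v) (by rw [inner_neg_right, hv, neg_zero])
  have k3 := key (Complex.I • v) (by rw [inner_smul_right, hv, mul_zero])
  have k4 := key (-(Complex.I • v)) (by rw [inner_neg_right, inner_smul_right, hv, mul_zero,
    neg_zero])
  rw [map_neg] at k2 k4
  rw [hI] at k3 k4
  have h1 : (starRingEnd ℂ α * fderiv ℝ ψ p v).re = 0 := by
    rw [mul_neg, Complex.neg_re] at k2
    linarith
  have h2 : (starRingEnd ℂ α * fderiv ℝ ψ p v).im = 0 := by
    have e1 : starRingEnd ℂ α * (Complex.I * fderiv ℝ ψ p v) =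
      Complex.I * (starRingEnd ℂ α * fderiv ℝ ψ p v) := by ring
    rw [e1, Complex.I_mul_re] at k3
    rw [mul_neg, e1, Complex.neg_re, Complex.I_mul_re] at k4
    linarith
  have h3 : starRingEnd ℂ α * fderiv ℝ ψ p v = 0 := Complex.ext h1 h2
  rcases mul_eq_zero.1 h3 with h4 | h4
  · exfalso
    have h5 : ‖starRingEnd ℂ α‖ = 1 := by rw [RCLike.norm_conj, hα, hp1]
    rw [h4, norm_zero] at h5
    norm_num at h5
  · exact h4

end Pool.Agent.Helper47.Cor
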