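import Mathlib
import Pool.Agent.Helper47.Cor.Smooth

/-!
The estimate on the Whitney cells.
-/

set_option autoImplicit false

open Metric Set Filter Topology WeakDual
open scoped ENNReal NNReal

namespace Pool.Agent.Helper47.Cor

open Pool.Agent.Y263.LF (Bez Bez.mono)
open Pool.Agent.Y263.GF (AF AD frac_AF ddiv)
open Pool.Agent.W732.Cor (mv t_mv t_ball)
open Pool.Agent.TH310.Cor (Aut aut_mv Nr one_sub_mv one_sub_inner Lo Lo_ge HB_Lo SolvL HB whit2)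

variable {m : ℕ}

/-- functions with small oscillation on the cells at `p` -/
theorem apx_cells {u : V m → ℂ} {R : ℝ} (hR : ∀ z ∈ ball (0 : V m) 1, ‖u z‖ ≤ R) {p : V m}
    (hp : ‖p‖ = 1)
    (h : ∀ q : V m, ‖q‖ = 1 → (inner ℂ p q : ℂ) = 0 → ∀ ε : ℝ, 0 < ε →
      ∃ κ : ℝ, 0 < κ ∧ ∀ a ∈ ball (0 : ℂ) 1, ‖1 - a‖ < κ → ∀ z ∈ ball (0 : V m) 1,
        ∀ w ∈ ball (0 : V m) 1, ‖z - q‖ < κ → ‖w - q‖ < κ → ‖u (mv p a z) - u (mv p a w)‖ ≤ ε)
    {ε : ℝ} (hε : 0 < ε) : Apx ε 1 Unit p (fun _ => u) := by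
  intro q hq hpq
  obtain ⟨κ, hκ, hu⟩ := h q hq hpq ε hε
  refine ⟨κ, hκ, ?_⟩
  obtain ⟨s, hs⟩ : ∃ s : ℝ, s = min κ 1 := ⟨_, rfl⟩
  have hs0 : 0 < s := by rw [hs]; exact lt_min hκ one_pos
  have hsr : s ≤ κ := by rw [hs]; exact min_le_left _ _
  have hs1 : s ≤ 1 := by rw [hs]; exact min_le_right _ _
  obtain ⟨w, hw⟩ : ∃ w : V m, w = ((1 - s / 2 : ℝ) : ℂ) • q := ⟨_, rfl⟩
  have hwB : w ∈ ball (0 : V m) 1 := by
    rw [mem_ball_zero_iff, hw, norm_smul, hq, Complex.norm_real,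
      Real.norm_of_nonneg (by linarith)]
    linarith
  have hwq : ‖w - q‖ < κ := by
    have h3 : w - q = (-(s / 2 : ℝ) : ℂ) • q := by
      rw [hw]
      push_cast
      module
    rw [h3, norm_smul, hq, norm_neg, Complex.norm_real, Real.norm_of_nonneg (by linarith)]
    linarith
  have h1 : Simple 0 (Unit × Nr κ) q (fun (x : Unit × Nr κ) (_ : V m) => u (mv p x.2 w)) :=
    Simple.comp (h := fun (x : Unit × Nr κ) _ => u (mv p x.2 w)) (ψ := fun _ _ => 0) (R := R)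
      (fun _ => differentiableOn_const _)
      (fun x _ _ => hR _ ((aut_mv t_mv hp x.2.2.1).m1 hwB)) (fun _ => AD_zero) le_rfl
  obtain ⟨ρ, K, P, h, ψ, h0, h1, h2, h3⟩ := h1
  refine ⟨min ρ κ, K, P, h, ψ, lt_min h0 hκ, h1, h2, fun x z hz hzq => ?_⟩
  have e1 := h3 x z hz (hzq.trans_le (min_le_left _ _))
  have e2 := hu x.2 x.2.2.1 x.2.2.2 z hz w hwB (hzq.trans_le (min_le_right _ _)) hwq
  have e3 := norm_add_le (u (mv p x.2 z) - u (mv p x.2 w))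
    (u (mv p x.2 w) - MvPolynomial.eval (fun k => h k x (ψ k x z)) P)
  rw [sub_add_sub_cancel] at e3
  linarith

/-- functions with a limit at `p` -/
theorem apx_lim {u : V m → ℂ} {p : V m} {c : ℂ}
    (h : Tendsto u (𝓝[ball (0 : V m) 1] p) (𝓝 c)) {ε : ℝ} (hε : 0 < ε) :
    Apx ε 0 Unit p (fun _ => u) := by
  have h1 := Metric.tendsto_nhds.1 h ε hε
  rw [eventually_nhdsWithin_iff, Metric.eventually_nhds_iff] at h1
  obtain ⟨ρ, hρ, h1⟩ := h1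
  refine ⟨ρ, 0, MvPolynomial.C c, fun k => k.elim0, fun k => k.elim0, hρ, fun k => k.elim0,
    fun k => k.elim0, fun _ z hz hzp => ?_⟩
  rw [MvPolynomial.eval_C, ← dist_eq_norm]
  exact (h1 (by rw [dist_eq_norm]; exact hzp) hz).le

/-- geometry of the cells -/
theorem cell_geo {p q : V m} (hp : ‖p‖ = 1) (hq : ‖q‖ = 1) (hpq : (inner ℂ p q : ℂ) = 0) {κ : ℝ}
    (hκ1 : κ ≤ 1 / 8) {a : ℂ} (ha : a ∈ ball (0 : ℂ) 1) {z w : V m}
    (hz : z ∈ ball (0 : V m) 1) (hw : w ∈ ball (0 : V m) 1) (hzq : ‖z - q‖ < κ)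
    (hwq : ‖w - q‖ < κ) :
    ‖(inner ℂ p (mv p a z - mv p a w) : ℂ)‖ ≤ 8 * κ * (1 - ‖a‖ ^ 2) ∧
    ‖mv p a z - mv p a w‖ ≤ 32 * κ * √(1 - ‖a‖ ^ 2) ∧
    ‖mv p a z - p‖ ≤ 3 * ‖1 - a‖ + 4 * √(1 - ‖a‖ ^ 2) ∧
    (‖1 - a‖ ^ 2 + (1 - ‖a‖ ^ 2)) / 16 ≤ ‖mv p a z - p‖ ^ 2 := by
  have ha' : ‖a‖ < 1 := mem_ball_zero_iff.1 ha
  have hκ0 : 0 < κ := (norm_nonneg _).trans_lt hzq
  obtain ⟨A, hA⟩ : ∃ A : ℝ, A = 1 - ‖a‖ ^ 2 := ⟨_, rfl⟩
  have hA0 : 0 ≤ A := by rw [hA]; nlinarith [norm_nonneg a]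
  have hA1 : A ≤ 1 := by rw [hA]; nlinarith [norm_nonneg a]
  obtain ⟨t, ht⟩ : ∃ t : ℝ, t = √(1 - ‖a‖ ^ 2) := ⟨_, rfl⟩
  have ht0 : 0 ≤ t := by rw [ht]; positivity
  have htA : t ^ 2 = A := by rw [ht, hA]; exact Real.sq_sqrt (by rw [← hA]; exact hA0)
  have ht1 : t ≤ 1 := by nlinarith
  have hAt : A ≤ t := by nlinarith
  rw [← ht, ← hA]
  -- the inner products
  have hs : ∀ {z : V m}, ‖z - q‖ < κ → ‖(inner ℂ p z : ℂ)‖ ≤ κ := by
    intro z hz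
    have h1 : (inner ℂ p z : ℂ) = inner ℂ p (z - q) := by rw [inner_sub_right, hpq, sub_zero]
    rw [h1]
    refine (norm_inner_le_norm _ _).trans ?_
    rw [hp, one_mul]
    exact hz.le
  have hD : ∀ {s : ℂ}, ‖s‖ ≤ κ → 1 / 2 ≤ ‖1 + starRingEnd ℂ a * s‖ ∧
      ‖1 + starRingEnd ℂ a * s‖ ≤ 2 := by
    intro s hs
    have h1 : ‖starRingEnd ℂ a * s‖ ≤ 1 / 8 := by
      rw [norm_mul, RCLike.norm_conj]
      nlinarith [norm_nonneg a, norm_nonneg s]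
    have h2 := norm_add_le (1 : ℂ) (starRingEnd ℂ a * s)
    have h3 := norm_sub_norm_le (1 : ℂ) (-(starRingEnd ℂ a * s))
    rw [norm_one] at h2 h3
    rw [norm_neg, sub_neg_eq_add] at h3
    constructor <;> linarith
  obtain ⟨sz, hsz⟩ : ∃ s : ℂ, s = inner ℂ p z := ⟨_, rfl⟩
  obtain ⟨sw, hsw⟩ : ∃ s : ℂ, s = inner ℂ p w := ⟨_, rfl⟩
  have hszκ : ‖sz‖ ≤ κ := by rw [hsz]; exact hs hzq
  have hswκ : ‖sw‖ ≤ κ := by rw [hsw]; exact hs hwq
  obtain ⟨hDz1, hDz2⟩ := hD hszκ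
  obtain ⟨hDw1, hDw2⟩ := hD hswκ
  obtain ⟨Dz, hDz⟩ : ∃ D : ℂ, D = 1 + starRingEnd ℂ a * sz := ⟨_, rfl⟩
  obtain ⟨Dw, hDw⟩ : ∃ D : ℂ, D = 1 + starRingEnd ℂ a * sw := ⟨_, rfl⟩
  rw [← hDz] at hDz1 hDz2
  rw [← hDw] at hDw1 hDw2
  have hDz0 : Dz ≠ 0 := by rw [← norm_pos_iff]; linarith
  have hDw0 : Dw ≠ 0 := by rw [← norm_pos_iff]; linarith
  obtain ⟨ez, hez⟩ : ∃ e : V m, e = z - sz • p := ⟨_, rfl⟩
  obtain ⟨ew, hew⟩ : ∃ e : V m, e = w - sw • p := ⟨_, rfl⟩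
  have hpp : (inner ℂ p p : ℂ) = 1 := by rw [inner_self_eq_norm_sq_to_K, hp]; norm_num
  have hpez : (inner ℂ p ez : ℂ) = 0 := by
    rw [hez, inner_sub_right, inner_smul_right, hpp, ← hsz]; ring
  have hpew : (inner ℂ p ew : ℂ) = 0 := by
    rw [hew, inner_sub_right, inner_smul_right, hpp, ← hsw]; ring
  have hmz : mv p a z = ((sz + a) / Dz) • p + ((t : ℂ) / Dz) • ez := by
    unfold mv
    rw [← hsz, ← ht, ← hDz, ← hez, smul_add, smul_smul, smul_smul]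
    congr 2 <;> ring
  have hmw : mv p a w = ((sw + a) / Dw) • p + ((t : ℂ) / Dw) • ew := by
    unfold mv
    rw [← hsw, ← ht, ← hDw, ← hew, smul_add, smul_smul, smul_smul]
    congr 2 <;> ring
  have htn : ‖(t : ℂ)‖ = t := by rw [Complex.norm_real, Real.norm_of_nonneg ht0]
  -- the difference of the inner products
  have hsd : ‖sz - sw‖ ≤ 2 * κ := (norm_sub_le _ _).trans (by linarith)
  have hcc : starRingEnd ℂ a * a = ((‖a‖ ^ 2 : ℝ) : ℂ) := by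
    rw [mul_comm, Complex.mul_conj, Complex.normSq_eq_norm_sq]
  have e1 : (sz + a) / Dz - (sw + a) / Dw = (A : ℂ) * (sz - sw) / (Dz * Dw) := by
    have e2 : ((A : ℝ) : ℂ) = 1 - starRingEnd ℂ a * a := by rw [hcc, hA]; push_cast; ring
    rw [e2]
    field_simp
    rw [hDz, hDw]
    ring
  have e2 : ‖(sz + a) / Dz - (sw + a) / Dw‖ ≤ 8 * κ * A := by
    rw [e1, norm_div, norm_mul, norm_mul, Complex.norm_real, Real.norm_of_nonneg hA0,
      div_le_iff₀ (by positivity)]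
    have h1 : (1 : ℝ) / 4 ≤ ‖Dz‖ * ‖Dw‖ := by nlinarith
    have h2 : A * ‖sz - sw‖ ≤ A * (2 * κ) := by gcongr
    have h3 : 8 * κ * A * (1 / 4) ≤ 8 * κ * A * (‖Dz‖ * ‖Dw‖) := by gcongr
    linarith
  have hzw : ‖z - w‖ ≤ 2 * κ := by
    have h1 := norm_sub_le (z - q) (w - q)
    rw [sub_sub_sub_cancel_right] at h1
    linarith
  have hed : ‖ez - ew‖ ≤ 4 * κ := by
    have h1 : ez - ew = (z - w) - (sz - sw) • p := by rw [hez, hew]; module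
    rw [h1]
    refine (norm_sub_le _ _).trans ?_
    rw [norm_smul, hp, mul_one]
    linarith
  have hen : ∀ {z : V m} {s : ℂ}, z ∈ ball (0 : V m) 1 → ‖s‖ ≤ κ → ‖z - s • p‖ ≤ 2 := by
    intro z s hz hs
    refine (norm_sub_le _ _).trans ?_
    rw [norm_smul, hp, mul_one]
    have := mem_ball_zero_iff.1 hz
    linarith
  have hez2 : ‖ez‖ ≤ 2 := by rw [hez]; exact hen hz hszκ
  have hew2 : ‖ew‖ ≤ 2 := by rw [hew]; exact hen hw hswκ
  have hez1 : 1 / 2 ≤ ‖ez‖ := by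
    have h1 : q = ez - (z - q) + sz • p := by rw [hez]; module
    have h2 := norm_add_le (ez - (z - q)) (sz • p)
    have h3 := norm_sub_le ez (z - q)
    rw [← h1, hq, norm_smul, hp, mul_one] at h2
    linarith
  refine ⟨?_, ?_, ?_, ?_⟩
  · have h1 : (inner ℂ p (mv p a z - mv p a w) : ℂ) = (sz + a) / Dz - (sw + a) / Dw := by
      rw [hmz, hmw, inner_sub_right, inner_add_right, inner_add_right, inner_smul_right,
        inner_smul_right, inner_smul_right, inner_smul_right, hpp, hpez, hpew]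
      ring
    rw [h1]
    exact e2
  · have h1 : mv p a z - mv p a w = ((sz + a) / Dz - (sw + a) / Dw) • p +
        (t : ℂ) • ((1 / Dz) • (ez - ew) + (1 / Dz - 1 / Dw) • ew) := by
      rw [hmz, hmw]
      module
    rw [h1]
    refine (norm_add_le _ _).trans ?_
    rw [norm_smul, norm_smul, hp, mul_one, htn]
    have h2 : ‖(1 / Dz) • (ez - ew)‖ ≤ 8 * κ := by
      rw [norm_smul, norm_div, norm_one]
      have h3 : 1 / ‖Dz‖ ≤ 2 := by rw [div_le_iff₀ (by linarith)]; linarith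
      calc 1 / ‖Dz‖ * ‖ez - ew‖ ≤ 2 * (4 * κ) := by gcongr
        _ = 8 * κ := by ring
    have h3 : ‖(1 / Dz - 1 / Dw) • ew‖ ≤ 16 * κ := by
      have h4 : 1 / Dz - 1 / Dw = starRingEnd ℂ a * (sw - sz) / (Dz * Dw) := by
        field_simp
        rw [hDz, hDw]
        ring
      rw [norm_smul, h4, norm_div, norm_mul, norm_mul, RCLike.norm_conj, norm_sub_rev]
      have h5 : ‖a‖ * ‖sz - sw‖ / (‖Dz‖ * ‖Dw‖) ≤ 8 * κ := by
        rw [div_le_iff₀ (by positivity)]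
        have h6 : (1 : ℝ) / 4 ≤ ‖Dz‖ * ‖Dw‖ := by nlinarith
        have h7 : ‖a‖ * ‖sz - sw‖ ≤ 1 * (2 * κ) := by gcongr
        have h8 : 8 * κ * (1 / 4) ≤ 8 * κ * (‖Dz‖ * ‖Dw‖) := by gcongr
        linarith
      calc ‖a‖ * ‖sz - sw‖ / (‖Dz‖ * ‖Dw‖) * ‖ew‖ ≤ 8 * κ * 2 := by gcongr
        _ = 16 * κ := by ring
    have h4 := norm_add_le ((1 / Dz) • (ez - ew)) ((1 / Dz - 1 / Dw) • ew)
    have h5 : t * ‖(1 / Dz) • (ez - ew) + (1 / Dz - 1 / Dw) • ew‖ ≤ t * (24 * κ) := by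
      gcongr
      linarith
    have h6 : 8 * κ * A ≤ 8 * κ * t := by gcongr
    linarith
  · have h1 : mv p a z - p = ((sz + a) / Dz - 1) • p + ((t : ℂ) / Dz) • ez := by
      rw [hmz]
      module
    have h2 : ‖(sz + a) / Dz - 1‖ ≤ 3 * ‖1 - a‖ := by
      have h3 := (one_sub_mv t_mv hp ha hpq hz (hzq.trans_le (by linarith))).1
      obtain ⟨-, -, -, h4, -⟩ := t_mv m p hp a ha
      rw [h4 z hz, ← hsz, ← hDz, norm_sub_rev] at h3
      exact h3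
    rw [h1]
    refine (norm_add_le _ _).trans ?_
    rw [norm_smul, norm_smul, hp, mul_one, norm_div, htn]
    have h3 : t / ‖Dz‖ * ‖ez‖ ≤ 4 * t := by
      have h4 : t / ‖Dz‖ ≤ 2 * t := by
        rw [div_le_iff₀ (by linarith)]
        nlinarith
      calc t / ‖Dz‖ * ‖ez‖ ≤ 2 * t * 2 := by gcongr
        _ = 4 * t := by ring
    linarith
  · have h1 : mv p a z - p = ((sz + a) / Dz - 1) • p + ((t : ℂ) / Dz) • ez := by
      rw [hmz]
      module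
    have h2 : ‖1 - a‖ / 3 ≤ ‖(sz + a) / Dz - 1‖ := by
      have h3 := (one_sub_mv t_mv hp ha hpq hz (hzq.trans_le (by linarith))).2
      obtain ⟨-, -, -, h4, -⟩ := t_mv m p hp a ha
      rw [h4 z hz, ← hsz, ← hDz, norm_sub_rev 1 ((sz + a) / Dz)] at h3
      exact h3
    have h3 := norm_add_sq_eq_norm_sq_add_norm_sq_of_inner_eq_zero (𝕜 := ℂ)
      (((sz + a) / Dz - 1) • p) (((t : ℂ) / Dz) • ez)
      (by rw [inner_smul_left, inner_smul_right, hpez, mul_zero, mul_zero])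
    rw [← h1] at h3
    rw [norm_smul, norm_smul, hp, mul_one, norm_div, htn] at h3
    have h4 : t / 4 ≤ t / ‖Dz‖ * ‖ez‖ := by
      have h5 : t / 2 ≤ t / ‖Dz‖ := by gcongr
      calc t / 4 = t / 2 * (1 / 2) := by ring
        _ ≤ t / ‖Dz‖ * ‖ez‖ := by gcongr
    have h5 : (‖1 - a‖ / 3) ^ 2 ≤ ‖(sz + a) / Dz - 1‖ ^ 2 := by gcongr
    have h6 : (t / 4) ^ 2 ≤ (t / ‖Dz‖ * ‖ez‖) ^ 2 := by gcongr
    have h7 : ‖mv p a z - p‖ ^ 2 = ‖(sz + a) / Dz - 1‖ ^ 2 + (t / ‖Dz‖ * ‖ez‖) ^ 2 := by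
      rw [pow_two, h3]; ring
    rw [h7]
    nlinarith [sq_nonneg ‖1 - a‖]

/-- Schwarz lemma -/
theorem schwarz_disc {h : ℂ → ℂ} {R : ℝ} (hh : DifferentiableOn ℂ h (ball 0 1))
    (hR : ∀ w ∈ ball (0 : ℂ) 1, ‖h w‖ ≤ R) {x y : ℂ} (hx : ‖x‖ < 1) {θ : ℝ}
    (hθ1 : θ ≤ 1 / 2) (hxy : ‖x - y‖ ≤ θ * (1 - ‖x‖)) : ‖h x - h y‖ ≤ 2 * R * θ := by
  have hx1 : 0 < 1 - ‖x‖ := by linarith
  have hR0 : 0 ≤ R := (norm_nonneg _).trans (hR 0 (mem_ball_self one_pos))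
  have hsub : ball x (1 - ‖x‖) ⊆ ball (0 : ℂ) 1 := by
    intro w hw
    rw [mem_ball_iff_norm] at hw
    rw [mem_ball_zero_iff]
    have := norm_add_le x (w - x)
    rw [add_sub_cancel] at this
    linarith
  have hb : MapsTo h (ball x (1 - ‖x‖)) (closedBall (h x) (2 * R)) := by
    intro w hw
    rw [mem_closedBall, dist_eq_norm]
    have h1 := hR w (hsub hw)
    have h2 := hR x (hsub (mem_ball_self hx1))
    have h3 := norm_sub_le (h w) (h x)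
    linarith
  have h3 := Complex.dist_le_div_mul_dist_of_mapsTo_ball (hh.mono hsub) hb (z := y) (by
    rw [mem_ball_iff_norm, norm_sub_rev]
    nlinarith)
  rw [dist_eq_norm, dist_eq_norm, norm_sub_rev, norm_sub_rev y x] at h3
  refine h3.trans ?_
  have h4 : 2 * R / (1 - ‖x‖) * ‖x - y‖ ≤ 2 * R / (1 - ‖x‖) * (θ * (1 - ‖x‖)) := by gcongr
  refine h4.trans (le_of_eq ?_)
  field_simp

/-- **Compositions with maps which are `C²` up to the boundary and have nondegenerate contact.** -/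
theorem Tm.smooth {ψ : V m → ℂ} (hψ : DifferentiableOn ℂ ψ (ball 0 1))
    (hψ1 : ∀ z ∈ ball (0 : V m) 1, ‖ψ z‖ < 1) (hC : ∀ p : V m, ‖p‖ = 1 → ContDiffAt ℝ 2 ψ p)
    (hnd : ∀ p : V m, ‖p‖ = 1 → ‖ψ p‖ = 1 → ∃ c : ℝ, 0 < c ∧ ∀ᶠ z in 𝓝[ball (0 : V m) 1] p,
      c * ‖z - p‖ ^ 2 ≤ 1 - ‖ψ z‖)
    {h : ℂ → ℂ} (hh : DifferentiableOn ℂ h (ball 0 1))
    (hhb : ∃ R : ℝ, ∀ w ∈ ball (0 : ℂ) 1, ‖h w‖ ≤ R) : Tm (fun z => h (ψ z)) := by
  obtain ⟨R, hR⟩ := hhb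
  have hR0 : 0 ≤ R := (norm_nonneg _).trans (hR 0 (mem_ball_self one_pos))
  have hm : MapsTo ψ (ball (0 : V m) 1) (ball 0 1) := fun z hz => mem_ball_zero_iff.2 (hψ1 z hz)
  refine ⟨hh.comp hψ hm, ⟨R, fun z hz => hR _ (hm hz)⟩, fun p hp ε hε => ?_⟩
  have hcl : p ∈ closure (ball (0 : V m) 1) := by
    rw [closure_ball _ one_ne_zero, mem_closedBall_zero_iff, hp]
  have hψp : ‖ψ p‖ ≤ 1 := by
    have h1 : Tendsto (fun z => ‖ψ z‖) (𝓝[ball (0 : V m) 1] p) (𝓝 ‖ψ p‖) :=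
      ((hC p hp).continuousAt.tendsto.mono_left nhdsWithin_le_nhds).norm
    have hne : (𝓝[ball (0 : V m) 1] p).NeBot := mem_closure_iff_nhdsWithin_neBot.1 hcl
    refine le_of_tendsto h1 ?_
    filter_upwards [self_mem_nhdsWithin] with z hz
    exact (hψ1 z hz).le
  rcases lt_or_eq_of_le hψp with hlt | heq
  · refine ⟨0, apx_lim (c := h (ψ p)) ?_ hε⟩
    have h1 : ContinuousAt h (ψ p) :=
      ((hh _ (mem_ball_zero_iff.2 hlt)).differentiableAt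
        (isOpen_ball.mem_nhds (mem_ball_zero_iff.2 hlt))).continuousAt
    exact h1.tendsto.comp ((hC p hp).continuousAt.tendsto.mono_left nhdsWithin_le_nhds)
  · refine ⟨1, apx_cells (R := R) (fun z hz => hR _ (hm hz)) hp (fun q hq hpq ε hε => ?_) hε⟩
    obtain ⟨M, r, hM, hr, hquad⟩ := quad (hC p hp)
    obtain ⟨c, hc, hnd'⟩ := hnd p hp heq
    rw [eventually_nhdsWithin_iff, Metric.eventually_nhds_iff] at hnd'
    obtain ⟨r', hr', hnd'⟩ := hnd'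
    obtain ⟨L, hL⟩ : ∃ L : ℝ, L = ‖fderiv ℝ ψ p‖ := ⟨_, rfl⟩
    have hL0 : 0 ≤ L := by rw [hL]; positivity
    obtain ⟨B, hB⟩ : ∃ B : ℝ, B = (8 * L + 352 * M) * 16 / c + 1 := ⟨_, rfl⟩
    have hB0 : 0 < B := by rw [hB]; positivity
    obtain ⟨r₀, hr₀⟩ : ∃ r₀ : ℝ, r₀ = min r r' := ⟨_, rfl⟩
    have hr₀0 : 0 < r₀ := by rw [hr₀]; exact lt_min hr hr'
    have hr₀1 : r₀ ≤ r := by rw [hr₀]; exact min_le_left _ _
    have hr₀2 : r₀ ≤ r' := by rw [hr₀]; exact min_le_right _ _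
    obtain ⟨κ, hκ⟩ : ∃ κ : ℝ, κ = min (min (1 / 8) (r₀ ^ 2 / 6))
        (min (1 / (2 * B)) (ε / (2 * (R + 1) * B))) := ⟨_, rfl⟩
    have hκ0 : 0 < κ := by rw [hκ]; positivity
    have hκ1 : κ ≤ 1 / 8 := by rw [hκ]; exact (min_le_left _ _).trans (min_le_left _ _)
    have hκ2 : κ ≤ r₀ ^ 2 / 6 := by rw [hκ]; exact (min_le_left _ _).trans (min_le_right _ _)
    have hκ3 : κ ≤ 1 / (2 * B) := by rw [hκ]; exact (min_le_right _ _).trans (min_le_left _ _)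
    have hκ4 : κ ≤ ε / (2 * (R + 1) * B) := by
      rw [hκ]; exact (min_le_right _ _).trans (min_le_right _ _)
    refine ⟨κ, hκ0, fun a ha haκ z hz w hw hzq hwq => ?_⟩
    have ha' : ‖a‖ < 1 := mem_ball_zero_iff.1 ha
    have A := aut_mv t_mv hp ha
    obtain ⟨g1, g2, g3, g4⟩ := cell_geo hp hq hpq hκ1 ha hz hw hzq hwq
    obtain ⟨-, -, g3', -⟩ := cell_geo hp hq hpq hκ1 ha hw hz hwq hzq
    have n1 := mv_near hp hpq hr₀0 ha (haκ.trans_le hκ2) hz (hzq.trans_le (by linarith))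
    have n2 := mv_near hp hpq hr₀0 ha (haκ.trans_le hκ2) hw (hwq.trans_le (by linarith))
    have hZ := A.m1 hz
    have hW := A.m1 hw
    obtain ⟨Z, hZe⟩ : ∃ Z, Z = mv p a z := ⟨_, rfl⟩
    obtain ⟨W, hWe⟩ : ∃ W, W = mv p a w := ⟨_, rfl⟩
    rw [← hZe] at g1 g2 g3 g4 n1 hZ ⊢
    rw [← hWe] at g1 g2 g3' n2 hW ⊢
    obtain ⟨D, hD⟩ : ∃ D : ℝ, D = 1 - ‖a‖ ^ 2 := ⟨_, rfl⟩
    have hD0 : 0 ≤ D := by rw [hD]; nlinarith [norm_nonneg a]
    obtain ⟨t, ht⟩ : ∃ t : ℝ, t = √(1 - ‖a‖ ^ 2) := ⟨_, rfl⟩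
    have ht0 : 0 ≤ t := by rw [ht]; positivity
    have htD : t ^ 2 = D := by rw [ht, hD]; exact Real.sq_sqrt (by rw [← hD]; exact hD0)
    rw [← hD] at g1 g4
    rw [← ht] at g2 g3 g3'
    obtain ⟨b, hb⟩ : ∃ b : ℝ, b = ‖1 - a‖ := ⟨_, rfl⟩
    have hb0 : 0 ≤ b := by rw [hb]; positivity
    rw [← hb] at g3 g3' g4
    -- the derivative
    have k1 : ‖fderiv ℝ ψ p (Z - W)‖ ≤ L * (8 * κ * D) := by
      have e1 : Z - W = (inner ℂ p (Z - W) : ℂ) • p + (Z - W - (inner ℂ p (Z - W) : ℂ) • p) := by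
        abel
      have hpp : (inner ℂ p p : ℂ) = 1 := by rw [inner_self_eq_norm_sq_to_K, hp]; norm_num
      have e2 : fderiv ℝ ψ p (Z - W - (inner ℂ p (Z - W) : ℂ) • p) = 0 := by
        refine tang hp hψ (fun z hz => (hψ1 z hz).le) heq (hC p hp) ?_
        rw [inner_sub_right, inner_smul_right, hpp, mul_one, sub_self]
      rw [e1, map_add, e2, add_zero]
      refine ((fderiv ℝ ψ p).le_opNorm _).trans ?_
      rw [norm_smul, hp, mul_one, ← hL]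
      gcongr
    have k2 := hquad Z (by rw [mem_ball_iff_norm]; linarith) W
      (by rw [mem_ball_iff_norm]; linarith)
    have k3 : ‖ψ Z - ψ W‖ ≤ κ * (8 * L + 352 * M) * (D + b ^ 2) := by
      have e1 := norm_add_le (ψ Z - ψ W - fderiv ℝ ψ p (Z - W)) (fderiv ℝ ψ p (Z - W))
      rw [sub_add_cancel] at e1
      have e2 : M * (‖Z - p‖ + ‖W - p‖) * ‖Z - W‖ ≤
          M * ((3 * b + 4 * t) + (3 * b + 4 * t)) * (32 * κ * t) := by gcongr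
      have e3 : b * t ≤ (b ^ 2 + t ^ 2) / 2 := by nlinarith [sq_nonneg (b - t)]
      have e4 : M * ((3 * b + 4 * t) + (3 * b + 4 * t)) * (32 * κ * t) =
          M * κ * (192 * (b * t) + 256 * t ^ 2) := by ring
      have e5 : M * κ * (192 * (b * t) + 256 * t ^ 2) ≤ M * κ * (352 * (D + b ^ 2)) := by
        gcongr
        rw [htD] at e3 ⊢
        nlinarith [sq_nonneg b]
      have e6 : L * (8 * κ * D) ≤ L * (8 * κ * (D + b ^ 2)) := by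
        gcongr
        nlinarith [sq_nonneg b]
      have e7 : κ * (8 * L + 352 * M) * (D + b ^ 2) =
        L * (8 * κ * (D + b ^ 2)) + M * κ * (352 * (D + b ^ 2)) := by ring
      rw [e7]
      linarith
    have k4 : c * ((b ^ 2 + D) / 16) ≤ 1 - ‖ψ Z‖ := by
      have e1 := hnd' (y := Z) (by rw [dist_eq_norm]; linarith) hZ
      have e2 : c * ((b ^ 2 + D) / 16) ≤ c * ‖Z - p‖ ^ 2 := by gcongr
      linarith
    have k5 : ‖ψ Z - ψ W‖ ≤ (κ * B) * (1 - ‖ψ Z‖) := by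
      refine k3.trans ?_
      have e1 : κ * (8 * L + 352 * M) * (D + b ^ 2) =
          κ * ((8 * L + 352 * M) * 16 / c) * (c * ((b ^ 2 + D) / 16)) := by
        field_simp
        ring
      rw [e1]
      have e2 : (8 * L + 352 * M) * 16 / c ≤ B := by rw [hB]; linarith
      have e3 : 0 ≤ 1 - ‖ψ Z‖ := by
        have := hψ1 Z hZ
        linarith
      have e4 : 0 ≤ c * ((b ^ 2 + D) / 16) := by positivity
      have e5 : 0 ≤ (8 * L + 352 * M) * 16 / c := by positivity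
      gcongr
    have k6 : κ * B ≤ 1 / 2 := by
      rw [le_div_iff₀ (by positivity)] at hκ3
      linarith
    have k7 := schwarz_disc hh hR (hψ1 Z hZ) k6 k5
    refine k7.trans ?_
    rw [le_div_iff₀ (by positivity)] at hκ4
    have e1 : 0 ≤ κ * B := by positivity
    nlinarith

end Pool.Agent.Helper47.Cor
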